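import Mathlib

set_option autoImplicit false
set_option linter.style.haveILetI false

namespace Pool.Agent.H945B

open PowerSeries

/-- `k⟦x⟧⟦X⟧`. -/
abbrev PP (k : Type) [Field k] := PowerSeries (PowerSeries k)

/-- `k[x][z][y]`. -/
abbrev E0 (k : Type) [Field k] := Polynomial (Polynomial (Polynomial k))

section basics

variable {k : Type} [Field k]

/-- The inner variable. -/
noncomputable def xP (k : Type) [Field k] : PP k := PowerSeries.C (PowerSeries.X)

/-- The element `Z = X (1 - X)`. -/
noncomputable def ZP (k : Type) [Field k] : PP k := PowerSeries.X * (1 - PowerSeries.X)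

/-- Reduction modulo the inner variable. -/
noncomputable def redP (k : Type) [Field k] : PP k →+* PowerSeries k :=
  PowerSeries.map (PowerSeries.constantCoeff)

theorem xP_ne_zero : xP k ≠ 0 := by
  intro h
  have := congrArg PowerSeries.constantCoeff h
  simp [xP] at this

theorem xP_dvd_iff (f : PP k) : xP k ∣ f ↔ redP k f = 0 := by
  constructor
  · rintro ⟨g, rfl⟩
    simp [redP, xP]
  · intro h
    have h1 : ∀ n, (PowerSeries.X : PowerSeries k) ∣ PowerSeries.coeff n f := by
      intro n
      rw [PowerSeries.X_dvd_iff]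
      have := congrArg (PowerSeries.coeff n) h
      simpa [redP] using this
    choose g hg using h1
    refine ⟨PowerSeries.mk g, ?_⟩
    ext n : 1
    rw [xP, PowerSeries.coeff_C_mul, PowerSeries.coeff_mk, hg]

theorem xP_prime : Prime (xP k) := by
  refine ⟨xP_ne_zero, ?_, ?_⟩
  · intro h
    have := (redP k).isUnit_map h
    rw [(xP_dvd_iff _).1 dvd_rfl] at this
    exact not_isUnit_zero this
  · intro a b h
    rw [xP_dvd_iff, map_mul, mul_eq_zero] at h
    rwa [xP_dvd_iff, xP_dvd_iff]

/-- The embedding `k[x][z] → P`. -/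
noncomputable def evA (k : Type) [Field k] : Polynomial (Polynomial k) →+* PP k :=
  Polynomial.eval₂RingHom ((PowerSeries.C).comp (Polynomial.coeToPowerSeries.ringHom)) (ZP k)

/-- The evaluation of `k[x][z][y]` at `y = σ + u Z`. -/
noncomputable def evP (σ : PowerSeries k) (u : PP k) : E0 k →+* PP k :=
  Polynomial.eval₂RingHom (evA k) (PowerSeries.C σ + u * ZP k)

/-- The polynomial `Z = X (1 - X)`. -/
noncomputable def Zk (k : Type) [Field k] : Polynomial k := Polynomial.X * (1 - Polynomial.X)

theorem Zk_natDegree : (Zk k).natDegree = 2 := by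
  unfold Zk
  have h1 : (1 - Polynomial.X : Polynomial k).natDegree = 1 := by
    rw [← neg_sub, Polynomial.natDegree_neg]
    exact Polynomial.natDegree_X_sub_C 1
  have h2 : (1 - Polynomial.X : Polynomial k) ≠ 0 := by
    intro h
    rw [h] at h1
    simp at h1
  rw [Polynomial.natDegree_mul Polynomial.X_ne_zero h2, h1, Polynomial.natDegree_X]

theorem comp_Z_ne_zero {A : Polynomial k} (h : A ≠ 0) : A.comp (Zk k) ≠ 0 := by
  intro h0
  rw [Polynomial.comp_eq_zero_iff] at h0
  rcases h0 with h0 | ⟨-, h0⟩
  · exact h h0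
  · have := Zk_natDegree (k := k)
    rw [h0, Polynomial.natDegree_C] at this
    omega

theorem parity {A B u : Polynomial k} (hu : u.natDegree = 1)
    (h : A.comp (Zk k) + u * Zk k * B.comp (Zk k) = 0) : A = 0 ∧ B = 0 := by
  have hZ : Zk k ≠ 0 := by
    intro h
    have := Zk_natDegree (k := k)
    rw [h] at this
    simp at this
  have hu0 : u ≠ 0 := by
    intro h
    rw [h] at hu
    simp at hu
  by_cases hB : B = 0
  · subst hB
    simp only [Polynomial.zero_comp, mul_zero, add_zero] at h
    by_contra hA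
    exact comp_Z_ne_zero (fun h' => hA ⟨h', rfl⟩) h
  · exfalso
    have h1 : A.comp (Zk k) = - (u * Zk k * B.comp (Zk k)) := eq_neg_of_add_eq_zero_left h
    have h2 := congrArg Polynomial.natDegree h1
    rw [Polynomial.natDegree_neg, Polynomial.natDegree_mul (mul_ne_zero hu0 hZ)
      (comp_Z_ne_zero hB), Polynomial.natDegree_mul hu0 hZ, Polynomial.natDegree_comp,
      Polynomial.natDegree_comp, Zk_natDegree, hu] at h2
    omega

/-- The reduced evaluation `x ↦ 0`, `z ↦ Z`, on `k[x][z]`. -/
noncomputable def rdA (k : Type) [Field k] : Polynomial (Polynomial k) →+* Polynomial k :=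
  (Polynomial.compRingHom (Zk k)).comp (Polynomial.mapRingHom (Polynomial.evalRingHom 0))

/-- The reduced evaluation `x ↦ 0`, `z ↦ Z`, `y ↦ u Z`. -/
noncomputable def rd (u : Polynomial k) : E0 k →+* Polynomial k :=
  Polynomial.eval₂RingHom (rdA k) (u * Zk k)

/-- `S_0 = y² - z y + z³`. -/
noncomputable def S0 (k : Type) [Field k] : E0 k :=
  Polynomial.X ^ 2 - Polynomial.C Polynomial.X * Polynomial.X +
    Polynomial.C (Polynomial.X ^ 3)

/-- The variable `x`. -/
noncomputable def x0 (k : Type) [Field k] : E0 k := Polynomial.C (Polynomial.C Polynomial.X)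

theorem S0_monic : (S0 k).Monic := by
  unfold S0
  have : (Polynomial.X ^ 2 - Polynomial.C Polynomial.X * Polynomial.X +
    Polynomial.C (Polynomial.X ^ 3) : E0 k) = Polynomial.X ^ 2 + (
      Polynomial.C (-Polynomial.X) * Polynomial.X + Polynomial.C (Polynomial.X ^ 3)) := by
    rw [Polynomial.C_neg]; ring
  rw [this]
  apply Polynomial.monic_X_pow_add
  refine lt_of_le_of_lt (Polynomial.degree_linear_le) ?_
  norm_num

theorem S0_natDegree : (S0 k).natDegree = 2 := by
  unfold S0
  have : (Polynomial.X ^ 2 - Polynomial.C Polynomial.X * Polynomial.X +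
    Polynomial.C (Polynomial.X ^ 3) : E0 k) = Polynomial.X ^ 2 + (
      Polynomial.C (-Polynomial.X) * Polynomial.X + Polynomial.C (Polynomial.X ^ 3)) := by
    rw [Polynomial.C_neg]; ring
  rw [this]
  apply Polynomial.natDegree_eq_of_degree_eq_some
  rw [Polynomial.degree_add_eq_left_of_degree_lt]
  · simp
  · refine lt_of_le_of_lt (Polynomial.degree_linear_le) ?_
    simp

/-- division by a monic quadratic polynomial. -/
theorem exists_rem {A : Type*} [CommRing A] [Nontrivial A] {S : Polynomial A} (hS : S.Monic)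
    (h2 : S.natDegree = 2)
    (e : Polynomial A) : ∃ (q : Polynomial A) (a b : A),
      e = S * q + (Polynomial.C a + Polynomial.C b * Polynomial.X) := by
  refine ⟨e /ₘ S, (e %ₘ S).coeff 0, (e %ₘ S).coeff 1, ?_⟩
  have h1 : (e %ₘ S).natDegree < 2 := by
    rw [← h2]
    apply Polynomial.natDegree_modByMonic_lt _ hS
    intro h
    rw [h] at h2
    simp at h2
  have h3 : e %ₘ S = Polynomial.C ((e %ₘ S).coeff 1) * Polynomial.X +
      Polynomial.C ((e %ₘ S).coeff 0) :=
    Polynomial.eq_X_add_C_of_natDegree_le_one (by omega)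
  have h4 := Polynomial.modByMonic_add_div e S
  rw [add_comm] at h4
  rw [add_comm (Polynomial.C ((e %ₘ S).coeff 0)), ← h3]
  exact h4.symm

theorem x_dvd_of_rdA {A : Polynomial (Polynomial k)}
    (h : A.map (Polynomial.evalRingHom 0) = 0) :
    ∃ A', A = Polynomial.C Polynomial.X * A' := by
  have : Polynomial.C Polynomial.X ∣ A := by
    rw [Polynomial.C_dvd_iff_dvd_coeff]
    intro i
    rw [Polynomial.X_dvd_iff]
    have := congrArg (fun p => Polynomial.coeff p i) h
    simpa [Polynomial.coeff_zero_eq_eval_zero] using this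
  exact this

theorem rd_ker {u : Polynomial k} (hu : u.natDegree = 1) (hu2 : u ^ 2 - u = - Zk k)
    {e : E0 k} (h : rd u e = 0) : ∃ a b : E0 k, e = x0 k * a + S0 k * b := by
  obtain ⟨q, a, b, he⟩ := exists_rem S0_monic S0_natDegree e
  have hS : rd u (S0 k) = 0 := by
    have h1 : rd u (S0 k) = (u * Zk k) ^ 2 - Zk k * (u * Zk k) + Zk k ^ 3 := by
      simp [rd, S0, rdA, Polynomial.eval₂_pow]
    rw [h1]
    have h2 : (u * Zk k) ^ 2 - Zk k * (u * Zk k) + Zk k ^ 3 =
      Zk k ^ 2 * (u ^ 2 - u + Zk k) := by ring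
    rw [h2, hu2]
    ring
  rw [he, map_add, map_mul, hS, zero_mul, zero_add] at h
  have h3 : (a.map (Polynomial.evalRingHom 0)).comp (Zk k) +
      u * Zk k * (b.map (Polynomial.evalRingHom 0)).comp (Zk k) = 0 := by
    rw [← h]
    simp only [rd, rdA, Polynomial.coe_eval₂RingHom, Polynomial.eval₂_add, Polynomial.eval₂_mul,
      Polynomial.eval₂_C, Polynomial.eval₂_X, RingHom.comp_apply, Polynomial.coe_mapRingHom,
      Polynomial.coe_compRingHom_apply]
    ring
  obtain ⟨h4, h5⟩ := parity hu h3
  obtain ⟨a', ha'⟩ := x_dvd_of_rdA h4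
  obtain ⟨b', hb'⟩ := x_dvd_of_rdA h5
  refine ⟨Polynomial.C a' + Polynomial.C b' * Polynomial.X, q, ?_⟩
  rw [he, ha', hb', x0]
  simp only [Polynomial.C_mul]
  ring

/-- Compatibility of the evaluation with the reduced evaluation. -/
theorem red_evA (A : Polynomial (Polynomial k)) : redP k (evA k A) = ((rdA k A : Polynomial k) : PowerSeries k) := by
  have : (redP k).comp (evA k) = (Polynomial.coeToPowerSeries.ringHom).comp (rdA k) := by
    apply Polynomial.ringHom_ext'
    · apply Polynomial.ringHom_ext
      · intro a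
        simp [redP, evA, rdA]
      · simp [redP, evA, rdA]
    · simp [redP, evA, rdA, ZP, Zk]
  exact RingHom.congr_fun this A

theorem red_evP {σ : PowerSeries k} (hσ : constantCoeff σ = 0) {u : Polynomial k} {v : PP k}
    (huv : redP k v = (u : PowerSeries k)) (e : E0 k) :
    redP k (evP σ v e) = ((rd u e : Polynomial k) : PowerSeries k) := by
  have : (redP k).comp (evP σ v) = (Polynomial.coeToPowerSeries.ringHom).comp (rd u) := by
    apply Polynomial.ringHom_ext
    · intro A
      have := red_evA (k := k) A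
      simpa [evP, rd] using this
    · simp only [evP, rd, RingHom.comp_apply, Polynomial.coe_eval₂RingHom, Polynomial.eval₂_X,
        map_add, map_mul, huv, Polynomial.coeToPowerSeries.ringHom_apply, Polynomial.coe_mul]
      simp [redP, ZP, Zk, hσ]
  exact RingHom.congr_fun this e

end basics

end Pool.Agent.H945B
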