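import Pool.Agent.H945B.A1

set_option autoImplicit false
set_option linter.style.haveILetI false

namespace Pool.Agent.H945B

open PowerSeries

/-- The ambient ring `P × P`. -/
abbrev BB (k : Type) [Field k] := PP k × PP k

section branches

variable {k : Type} [Field k]

/-- The element `x`. -/
noncomputable def xB (k : Type) [Field k] : BB k := (xP k, xP k)

/-- Evaluation on both branches. -/
noncomputable def ev (σ : PowerSeries k) : E0 k →+* BB k :=
  RingHom.prod (evP σ PowerSeries.X) (evP σ (1 - PowerSeries.X))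

/-- The ring `T` of pairs with the same constant coefficient. -/
noncomputable def TT (k : Type) [Field k] : Subring (BB k) where
  carrier := {c | constantCoeff c.1 = constantCoeff c.2}
  mul_mem' := by intro a b ha hb; simp only [Set.mem_ofPred_eq] at *; simp [ha, hb]
  one_mem' := by simp
  add_mem' := by intro a b ha hb; simp only [Set.mem_ofPred_eq] at *; simp [ha, hb]
  zero_mem' := by simp
  neg_mem' := by intro a ha; simp only [Set.mem_ofPred_eq] at *; simp [ha]

theorem mem_TT {c : BB k} : c ∈ TT k ↔ constantCoeff c.1 = constantCoeff c.2 := Iff.rfl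

/-- Tail of a power series. -/
noncomputable def tau (σ : PowerSeries k) (m : ℕ) : PowerSeries k :=
  PowerSeries.mk fun i => PowerSeries.coeff (i + m) σ

theorem sigma_eq (σ : PowerSeries k) (m : ℕ) :
    σ = X ^ m * tau σ m + ((trunc m σ : Polynomial k) : PowerSeries k) := by
  rw [mul_comm]
  exact eq_shift_mul_X_pow_add_trunc m σ

theorem tau_eq (σ : PowerSeries k) (m : ℕ) :
    tau σ m = C (coeff m σ) + X * tau σ (m + 1) := by
  ext n
  cases n with
  | zero => simp [tau]
  | succ n =>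
    simp only [tau, coeff_mk, map_add, coeff_succ_X_mul, coeff_C, Nat.add_eq_zero_iff,
      one_ne_zero, and_false, if_false, zero_add]
    congr 1
    ring

/-- The elements `f_m` on one branch. -/
noncomputable def fP (σ : PowerSeries k) (m : ℕ) (u : PP k) : PP k :=
  C (tau σ m) * ((2 * u - 1) * ZP k + (xP k) ^ m * C (tau σ m))

/-- The elements `f_m`. -/
noncomputable def fB (σ : PowerSeries k) (m : ℕ) : BB k := (fP σ m X, fP σ m (1 - X))

/-- The constants in `k[x][z][y]`. -/
noncomputable def sE (σ : PowerSeries k) (m : ℕ) : E0 k :=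
  Polynomial.C (Polynomial.C (Polynomial.C (coeff m σ)))

/-- Truncations of `σ` in `k[x][z][y]`. -/
noncomputable def tE (σ : PowerSeries k) (m : ℕ) : E0 k :=
  Polynomial.C (Polynomial.C (trunc m σ))

/-- The elements `c_m`. -/
noncomputable def cE (σ : PowerSeries k) (m : ℕ) : E0 k :=
  sE σ m * (2 * (Polynomial.X - tE σ (m + 1)) - Polynomial.C Polynomial.X + sE σ m * (x0 k) ^ m)

/-- The polynomials `S_m`. -/
noncomputable def SE (σ : PowerSeries k) (m : ℕ) : E0 k :=
  (Polynomial.X - tE σ m) ^ 2 - Polynomial.C Polynomial.X * (Polynomial.X - tE σ m) +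
    (Polynomial.C Polynomial.X) ^ 3

theorem evP_sE (σ : PowerSeries k) (u : PP k) (m : ℕ) : evP σ u (sE σ m) = C (C (coeff m σ)) := by
  simp [evP, sE, evA]

theorem evP_tE (σ : PowerSeries k) (u : PP k) (m : ℕ) :
    evP σ u (tE σ m) = C (((trunc m σ : Polynomial k) : PowerSeries k)) := by
  simp [evP, tE, evA]

theorem evP_x0 (σ : PowerSeries k) (u : PP k) : evP σ u (x0 k) = xP k := by
  simp [evP, x0, evA, xP]

theorem evP_z (σ : PowerSeries k) (u : PP k) : evP σ u (Polynomial.C Polynomial.X) = ZP k := by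
  simp [evP, evA]

theorem evP_y (σ : PowerSeries k) (u : PP k) :
    evP σ u Polynomial.X = C σ + u * ZP k := by
  simp [evP]

theorem evP_sub (σ : PowerSeries k) (u : PP k) (a b : E0 k) :
    evP σ u (a - b) = evP σ u a - evP σ u b := map_sub _ a b

theorem evP_y_sub (σ : PowerSeries k) (u : PP k) (m : ℕ) :
    evP σ u (Polynomial.X - tE σ m) = xP k ^ m * C (tau σ m) + u * ZP k := by
  have h : (C σ : PP k) = xP k ^ m * C (tau σ m) +
      C (((trunc m σ : Polynomial k) : PowerSeries k)) := by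
    have := congrArg (C : PowerSeries k →+* PP k) (sigma_eq σ m)
    rwa [map_add, map_mul, map_pow] at this
  rw [evP_sub, evP_y, evP_tE]
  linear_combination h

theorem evP_SE (σ : PowerSeries k) {u : PP k} (hu : u ^ 2 - u = - ZP k) (m : ℕ) :
    evP σ u (SE σ m) = xP k ^ m * fP σ m u := by
  unfold SE
  rw [map_add, evP_sub, map_mul, map_pow, map_pow, evP_y_sub, evP_z, fP]
  linear_combination (ZP k) ^ 2 * hu

theorem evP_fP (σ : PowerSeries k) (u : PP k) (m : ℕ) :
    fP σ m u = xP k * fP σ (m + 1) u + evP σ u (cE σ m) := by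
  unfold cE
  rw [map_mul, map_add, evP_sub, map_mul, map_mul, map_pow, evP_y_sub, evP_z, evP_sE, evP_x0, fP,
    fP]
  have h1 : (C (tau σ m) : PP k) = C (C (coeff m σ)) + xP k * C (tau σ (m + 1)) := by
    conv_lhs => rw [tau_eq]
    rw [map_add, map_mul, xP]
  have h2 : evP σ u 2 = 2 := map_ofNat _ 2
  rw [h2, h1]
  ring

theorem huX : (X : PP k) ^ 2 - X = - ZP k := by unfold ZP; ring

theorem hu1X : (1 - X : PP k) ^ 2 - (1 - X) = - ZP k := by unfold ZP; ring

theorem ev_SE (σ : PowerSeries k) (m : ℕ) : ev σ (SE σ m) = xB k ^ m * fB σ m :=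
  Prod.ext (evP_SE σ huX m) (evP_SE σ hu1X m)

theorem ev_fB (σ : PowerSeries k) (m : ℕ) : fB σ m = xB k * fB σ (m + 1) + ev σ (cE σ m) :=
  Prod.ext (evP_fP σ X m) (evP_fP σ (1 - X) m)

theorem SE_one {σ : PowerSeries k} (hσ : constantCoeff σ = 0) : SE σ 1 = S0 k := by
  have h : tE σ 1 = 0 := by
    unfold tE
    have : trunc 1 σ = 0 := by
      ext n
      rw [coeff_trunc]
      split_ifs with hn
      · have : n = 0 := by omega
        subst this
        simpa using hσ
      · simp
    rw [this]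
    simp
  unfold SE S0
  have h2 : (Polynomial.X - 0 : E0 k) = Polynomial.X := by ring
  rw [h, Polynomial.C_pow, h2]

theorem ev_x0 (σ : PowerSeries k) : ev σ (x0 k) = xB k :=
  Prod.ext (evP_x0 σ X) (evP_x0 σ (1 - X))

/-- `E_0 + E_0 f_m`. -/
def inE (σ : PowerSeries k) (m : ℕ) (t : BB k) : Prop :=
  ∃ a b : E0 k, t = ev σ a + ev σ b * fB σ m

theorem inE_succ {σ : PowerSeries k} {m : ℕ} {t : BB k} (h : inE σ m t) : inE σ (m + 1) t := by
  obtain ⟨a, b, rfl⟩ := h
  refine ⟨a + b * cE σ m, b * x0 k, ?_⟩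
  rw [ev_fB σ m]
  simp only [map_add, map_mul, ev_x0]
  ring

theorem f1_inE (σ : PowerSeries k) (m : ℕ) : inE σ (m + 1) (fB σ 1) := by
  induction m with
  | zero => exact ⟨0, 1, by simp⟩
  | succ m ih => exact inE_succ ih

theorem inE_add {σ : PowerSeries k} {m : ℕ} {t t' : BB k} (h : inE σ m t) (h' : inE σ m t') :
    inE σ m (t + t') := by
  obtain ⟨a, b, rfl⟩ := h
  obtain ⟨a', b', rfl⟩ := h'
  exact ⟨a + a', b + b', by simp only [map_add]; ring⟩

theorem inE_smul {σ : PowerSeries k} {m : ℕ} {t : BB k} (h : inE σ m t) (e : E0 k) :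
    inE σ m (ev σ e * t) := by
  obtain ⟨a, b, rfl⟩ := h
  exact ⟨e * a, e * b, by simp only [map_mul]; ring⟩

theorem redX : redP k (X : PP k) = ((Polynomial.X : Polynomial k) : PowerSeries k) := by
  simp [redP]

theorem red1X : redP k (1 - X : PP k) = ((1 - Polynomial.X : Polynomial k) : PowerSeries k) := by
  simp [redP]

theorem natDegree_1X : (1 - Polynomial.X : Polynomial k).natDegree = 1 := by
  rw [← neg_sub, Polynomial.natDegree_neg]
  exact Polynomial.natDegree_X_sub_C 1

/-- The key divisibility step. -/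
theorem step {σ : PowerSeries k} (hσ : constantCoeff σ = 0) {m : ℕ} {t : BB k} (h : inE σ m t)
    (h0 : xP k ∣ t.1 ∨ xP k ∣ t.2) : ∃ t', inE σ (m + 1) t' ∧ t = xB k * t' := by
  obtain ⟨a, b, ht⟩ := h
  have h1 : t = ev σ (a + b * cE σ m) + xB k * (ev σ b * fB σ (m + 1)) := by
    rw [ht, ev_fB σ m]
    simp only [map_add, map_mul]
    ring
  have h2 : ∃ a1 b1 : E0 k, a + b * cE σ m = x0 k * a1 + S0 k * b1 := by
    rcases h0 with h0 | h0
    · have h3 : xP k ∣ evP σ X (a + b * cE σ m) := by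
        have : evP σ X (a + b * cE σ m) = t.1 - xP k * (ev σ b * fB σ (m + 1)).1 := by
          rw [h1]
          simp [ev, xB]
        rw [this]
        exact dvd_sub h0 (dvd_mul_right _ _)
      rw [xP_dvd_iff, red_evP hσ redX] at h3
      apply rd_ker (u := Polynomial.X) Polynomial.natDegree_X
      · unfold Zk; ring
      · exact_mod_cast h3
    · have h3 : xP k ∣ evP σ (1 - X) (a + b * cE σ m) := by
        have : evP σ (1 - X) (a + b * cE σ m) = t.2 - xP k * (ev σ b * fB σ (m + 1)).2 := by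
          rw [h1]
          simp [ev, xB]
        rw [this]
        exact dvd_sub h0 (dvd_mul_right _ _)
      rw [xP_dvd_iff, red_evP hσ red1X] at h3
      apply rd_ker (u := 1 - Polynomial.X) natDegree_1X
      · unfold Zk; ring
      · exact_mod_cast h3
  obtain ⟨a1, b1, hab⟩ := h2
  refine ⟨ev σ a1 + (ev σ b1 * fB σ 1 + ev σ b * fB σ (m + 1)), ?_, ?_⟩
  · refine inE_add ⟨a1, 0, by simp⟩ (inE_add (inE_smul (f1_inE σ m) b1) ⟨0, b, by simp⟩)
  · rw [h1, hab, map_add, map_mul, map_mul, ev_x0, ← SE_one hσ, ev_SE]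
    ring

theorem xB_cancel {a b : BB k} (h : xB k * a = xB k * b) : a = b := by
  have h1 := congrArg Prod.fst h
  have h2 := congrArg Prod.snd h
  simp only [xB, Prod.fst_mul, Prod.snd_mul] at h1 h2
  exact Prod.ext (mul_left_cancel₀ xP_ne_zero h1) (mul_left_cancel₀ xP_ne_zero h2)

theorem steps {σ : PowerSeries k} (hσ : constantCoeff σ = 0) (n : ℕ) {m : ℕ} {t : BB k}
    (h : inE σ m (xB k ^ n * t)) : inE σ (m + n) t := by
  induction n generalizing m with
  | zero => simpa using h
  | succ n ih =>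
    obtain ⟨t', h1, h2⟩ := step hσ h (Or.inl ⟨xP k ^ n * t.1, by simp [xB, pow_succ]; ring⟩)
    have h3 : xB k ^ n * t = t' := by
      apply xB_cancel
      rw [← h2]; ring
    rw [← h3] at h1
    have := ih h1
    rwa [show m + (n + 1) = m + 1 + n by ring]

theorem ev_mem_TT (σ : PowerSeries k) (e : E0 k) : ev σ e ∈ TT k := by
  rw [mem_TT]
  have : (constantCoeff).comp (evP σ (X : PP k)) = (constantCoeff).comp (evP σ (1 - X : PP k)) := by
    apply Polynomial.ringHom_ext
    · intro A
      simp [evP]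
    · simp [evP, ZP]
  exact RingHom.congr_fun this e

theorem fB_mem_TT (σ : PowerSeries k) (m : ℕ) : fB σ m ∈ TT k := by
  rw [mem_TT]
  simp [fB, fP, ZP]

theorem inE_mem_TT {σ : PowerSeries k} {m : ℕ} {t : BB k} (h : inE σ m t) : t ∈ TT k := by
  obtain ⟨a, b, rfl⟩ := h
  exact (TT k).add_mem (ev_mem_TT σ a) ((TT k).mul_mem (ev_mem_TT σ b) (fB_mem_TT σ m))

theorem xB_mem_TT : xB k ∈ TT k := by simp [mem_TT, xB]

theorem inE_mod {σ : PowerSeries k} {m : ℕ} {t : BB k} (h : inE σ m t) :
    ∃ a : E0 k, ∃ t' ∈ TT k, t = ev σ a + xB k * t' := by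
  obtain ⟨a, b, rfl⟩ := h
  refine ⟨a + b * cE σ m, ev σ b * fB σ (m + 1),
    (TT k).mul_mem (ev_mem_TT σ b) (fB_mem_TT σ _), ?_⟩
  rw [ev_fB σ m]
  simp only [map_add, map_mul]
  ring

end branches

end Pool.Agent.H945B
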