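import Pool.Agent.H945B.A2

set_option autoImplicit false
set_option linter.style.haveILetI false

namespace Pool.Agent.H945B

open PowerSeries

section ringR

variable {k : Type} [Field k]

/-- The residue map. -/
noncomputable def dn (k : Type) [Field k] : BB k →+* k :=
  (constantCoeff).comp ((constantCoeff).comp (RingHom.fst (PP k) (PP k)))

theorem dn_apply (c : BB k) : dn k c = constantCoeff (constantCoeff c.1) := rfl

theorem isUnit_TT {s : BB k} (hs : s ∈ TT k) : IsUnit s ↔ dn k s ≠ 0 := by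
  rw [mem_TT] at hs
  constructor
  · intro h
    exact ((dn k).isUnit_map h).ne_zero
  · intro h
    rw [dn_apply] at h
    rw [Prod.isUnit_iff]
    constructor
    · rw [PowerSeries.isUnit_iff_constantCoeff, PowerSeries.isUnit_iff_constantCoeff]
      exact isUnit_iff_ne_zero.2 h
    · rw [PowerSeries.isUnit_iff_constantCoeff, PowerSeries.isUnit_iff_constantCoeff, ← hs]
      exact isUnit_iff_ne_zero.2 h

theorem inv_mem_TT {s t : BB k} (hs : s ∈ TT k) (hst : s * t = 1) : t ∈ TT k := by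
  rw [mem_TT] at hs ⊢
  have h1 := congrArg (fun c : BB k => constantCoeff c.1) hst
  have h2 := congrArg (fun c : BB k => constantCoeff c.2) hst
  simp only [Prod.fst_mul, Prod.snd_mul, map_mul, Prod.fst_one, Prod.snd_one, map_one] at h1 h2
  rw [hs] at h1
  have h3 : constantCoeff s.2 ≠ 0 := by
    intro h
    rw [h, zero_mul] at h1
    exact zero_ne_one h1
  exact mul_left_cancel₀ h3 (h1.trans h2.symm)

theorem exists_inv {s : BB k} (hs : s ∈ TT k) (h : dn k s ≠ 0) : ∃ t ∈ TT k, s * t = 1 := by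
  obtain ⟨t, ht⟩ := ((isUnit_TT hs).2 h).exists_right_inv
  exact ⟨t, inv_mem_TT hs ht, ht⟩

/-- The ring `R`. -/
noncomputable def RR (σ : PowerSeries k) : Subring (BB k) where
  carrier := {t | t ∈ TT k ∧ ∃ (w e : E0 k) (n : ℕ) (s : BB k), s ∈ TT k ∧ dn k s ≠ 0 ∧
    ev σ w = xB k ^ n * s ∧ ev σ w * t = ev σ e}
  mul_mem' := by
    rintro t t' ⟨h1, w, e, n, s, h2, h3, h4, h5⟩ ⟨h1', w', e', n', s', h2', h3', h4', h5'⟩
    refine ⟨(TT k).mul_mem h1 h1', w * w', e * e', n + n', s * s', (TT k).mul_mem h2 h2', ?_, ?_, ?_⟩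
    · rw [map_mul]; exact mul_ne_zero h3 h3'
    · rw [map_mul, h4, h4']; ring
    · rw [map_mul, map_mul, ← h5, ← h5']; ring
  one_mem' := ⟨(TT k).one_mem, 1, 1, 0, 1, (TT k).one_mem, by simp, by simp, by simp⟩
  add_mem' := by
    rintro t t' ⟨h1, w, e, n, s, h2, h3, h4, h5⟩ ⟨h1', w', e', n', s', h2', h3', h4', h5'⟩
    refine ⟨(TT k).add_mem h1 h1', w * w', e * w' + e' * w, n + n', s * s',
      (TT k).mul_mem h2 h2', ?_, ?_, ?_⟩
    · rw [map_mul]; exact mul_ne_zero h3 h3'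
    · rw [map_mul, h4, h4']; ring
    · rw [map_mul, map_add, map_mul, map_mul, ← h5, ← h5']; ring
  zero_mem' := ⟨(TT k).zero_mem, 1, 0, 0, 1, (TT k).one_mem, by simp, by simp, by simp⟩
  neg_mem' := by
    rintro t ⟨h1, w, e, n, s, h2, h3, h4, h5⟩
    refine ⟨(TT k).neg_mem h1, w, - e, n, s, h2, h3, h4, ?_⟩
    rw [mul_neg, h5]
    exact (map_neg (ev σ) e).symm

variable {σ : PowerSeries k}

theorem RR_le_TT : RR σ ≤ TT k := fun _ h => h.1

theorem ev_mem_RR (e : E0 k) : ev σ e ∈ RR σ :=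
  ⟨ev_mem_TT σ e, 1, e, 0, 1, (TT k).one_mem, by simp, by simp, by simp⟩

theorem xB_mem_RR : xB k ∈ RR σ := by
  rw [← ev_x0 σ]
  exact ev_mem_RR _

theorem RR_div {t : BB k} (ht : t ∈ TT k) {n : ℕ} (h : xB k ^ n * t ∈ RR σ) : t ∈ RR σ := by
  obtain ⟨-, w, e, m, s, h2, h3, h4, h5⟩ := h
  refine ⟨ht, x0 k ^ n * w, e, n + m, s, h2, h3, ?_, ?_⟩
  · rw [map_mul, map_pow, ev_x0, h4]; ring
  · rw [map_mul, map_pow, ev_x0, ← h5]; ring

theorem RR_inv {t t' : BB k} (ht : t ∈ RR σ) (h : t * t' = 1) : t' ∈ RR σ := by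
  obtain ⟨h1, w, e, n, s, h2, h3, h4, h5⟩ := ht
  have h6 : t' ∈ TT k := inv_mem_TT h1 h
  have h7 : dn k t ≠ 0 := (isUnit_TT h1).1 (IsUnit.of_mul_eq_one _ h)
  refine ⟨h6, e, w, n, s * t, (TT k).mul_mem h2 h1, ?_, ?_, ?_⟩
  · rw [map_mul]; exact mul_ne_zero h3 h7
  · rw [← h5, h4]; ring
  · rw [← h5]
    calc ev σ w * t * t' = ev σ w * (t * t') := by ring
      _ = ev σ w := by rw [h, mul_one]

theorem fB_mem_RR (m : ℕ) : fB σ m ∈ RR σ := by
  apply RR_div (fB_mem_TT σ m) (n := m)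
  rw [← ev_SE]
  exact ev_mem_RR _

theorem RR_inE {t : BB k} (hσ : constantCoeff σ = 0) (h : t ∈ RR σ) : ∃ (n : ℕ) (s : BB k),
    s ∈ TT k ∧ dn k s ≠ 0 ∧ inE σ n s ∧ inE σ n (s * t) := by
  obtain ⟨h1, w, e, n, s, h2, h3, h4, h5⟩ := h
  refine ⟨n, s, h2, h3, ?_, ?_⟩
  · have : inE σ 0 (xB k ^ n * s) := ⟨w, 0, by rw [← h4]; simp⟩
    simpa using steps hσ n this
  · have : inE σ 0 (xB k ^ n * (s * t)) := ⟨e, 0, by rw [← h5, h4]; simp; ring⟩
    simpa using steps hσ n this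

/-- Divisibility by `x` on one branch implies divisibility by `x` in `R`. -/
theorem Q1 {t : BB k} (hσ : constantCoeff σ = 0) (h : t ∈ RR σ)
    (h0 : xP k ∣ t.1 ∨ xP k ∣ t.2) : ∃ t' ∈ RR σ, t = xB k * t' := by
  obtain ⟨n, s, h1, h2, h3, h4⟩ := RR_inE hσ h
  obtain ⟨t'', h5, h6⟩ := step hσ h4 (by
    rcases h0 with h0 | h0
    · exact Or.inl (Dvd.dvd.mul_left h0 _)
    · exact Or.inr (Dvd.dvd.mul_left h0 _))
  obtain ⟨s', h7, h8⟩ := exists_inv h1 h2
  have h9 : s' * t'' ∈ TT k := (TT k).mul_mem h7 (inE_mem_TT h5)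
  have h10 : t = xB k * (s' * t'') := by
    calc t = (s * s') * t := by rw [h8, one_mul]
      _ = s' * (s * t) := by ring
      _ = xB k * (s' * t'') := by rw [h6]; ring
  refine ⟨s' * t'', ?_, h10⟩
  apply RR_div h9 (n := 1)
  rw [pow_one, ← h10]
  exact h

theorem approx1 {t : BB k} (hσ : constantCoeff σ = 0) (h : t ∈ RR σ) :
    ∃ a b : E0 k, dn k (ev σ b) ≠ 0 ∧ ∃ t' ∈ RR σ, ev σ b * t = ev σ a + xB k * t' := by
  obtain ⟨n, s, h1, h2, h3, h4⟩ := RR_inE hσ h
  obtain ⟨b, s1, hs1, hb⟩ := inE_mod h3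
  obtain ⟨a, t1, ht1, ha⟩ := inE_mod h4
  have hdx : dn k (xB k) = 0 := by simp [dn_apply, xB, xP]
  have h5 : ev σ b * t = ev σ a + xB k * (t1 - s1 * t) := by
    have : ev σ b = s - xB k * s1 := by rw [hb]; ring
    rw [this]
    calc (s - xB k * s1) * t = s * t - xB k * (s1 * t) := by ring
      _ = _ := by rw [ha]; ring
  refine ⟨a, b, ?_, t1 - s1 * t, ?_, h5⟩
  · intro h0
    apply h2
    rw [hb, map_add, h0, map_mul, hdx]
    ring
  · apply RR_div ((TT k).sub_mem ht1 ((TT k).mul_mem hs1 (RR_le_TT h))) (n := 1)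
    rw [pow_one]
    have : xB k * (t1 - s1 * t) = ev σ b * t - ev σ a := by rw [h5]; ring
    rw [this]
    exact (RR σ).sub_mem ((RR σ).mul_mem (ev_mem_RR b) h) (ev_mem_RR a)

theorem approx {t : BB k} (hσ : constantCoeff σ = 0) (h : t ∈ RR σ) (n : ℕ) :
    ∃ a b : E0 k, dn k (ev σ b) ≠ 0 ∧ ∃ t' ∈ RR σ, ev σ b * t = ev σ a + xB k ^ n * t' := by
  induction n generalizing t with
  | zero => exact ⟨0, 1, by simp, t, h, by simp⟩
  | succ n ih =>
    obtain ⟨a, b, h1, t', h2, h3⟩ := approx1 hσ h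
    obtain ⟨a', b', h1', t'', h2', h3'⟩ := ih h2
    refine ⟨a * b' + x0 k * a', b * b', ?_, t'', h2', ?_⟩
    · rw [map_mul, map_mul]; exact mul_ne_zero h1 h1'
    · rw [map_mul, map_add, map_mul, map_mul, ev_x0]
      calc ev σ b * ev σ b' * t = ev σ b' * (ev σ b * t) := by ring
        _ = ev σ b' * ev σ a + xB k * (ev σ b' * t') := by rw [h3]; ring
        _ = _ := by rw [h3']; ring

end ringR

section types

variable {k : Type} [Field k] (σ : PowerSeries k)

/-- The residue map on `T`. -/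
noncomputable def dT (k : Type) [Field k] : TT k →+* k := (dn k).comp (TT k).subtype

/-- The residue map on `R`. -/
noncomputable def dR : RR σ →+* k := (dn k).comp (RR σ).subtype

instance isLocalHom_dT : IsLocalHom (dT k) where
  map_nonunit := by
    intro t ht
    obtain ⟨t', h1, h2⟩ := exists_inv t.2 ht.ne_zero
    exact IsUnit.of_mul_eq_one (⟨t', h1⟩ : TT k) (Subtype.ext h2)

instance isLocalHom_dR : IsLocalHom (dR σ) where
  map_nonunit := by
    intro t ht
    obtain ⟨t', h1, h2⟩ := exists_inv (RR_le_TT t.2) ht.ne_zero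
    exact IsUnit.of_mul_eq_one (⟨t', RR_inv t.2 h2⟩ : RR σ) (Subtype.ext h2)

instance isLocal_T : IsLocalRing (TT k) := (dT k).domain_isLocalRing

instance isLocal_R : IsLocalRing (RR σ) := (dR σ).domain_isLocalRing

theorem mem_maxT (t : TT k) : t ∈ IsLocalRing.maximalIdeal (TT k) ↔ dT k t = 0 := by
  rw [IsLocalRing.mem_maximalIdeal, mem_nonunits_iff, ← isUnit_map_iff (dT k),
    isUnit_iff_ne_zero, not_not]

theorem mem_maxR (t : RR σ) : t ∈ IsLocalRing.maximalIdeal (RR σ) ↔ dR σ t = 0 := by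
  rw [IsLocalRing.mem_maximalIdeal, mem_nonunits_iff, ← isUnit_map_iff (dR σ),
    isUnit_iff_ne_zero, not_not]

/-- The evaluation into `R`. -/
noncomputable def evR : E0 k →+* RR σ := (ev σ).codRestrict (RR σ) (fun e => ev_mem_RR e)

theorem coe_evR (e : E0 k) : ((evR σ e : RR σ) : BB k) = ev σ e := rfl

/-- The element `x` of `R`. -/
noncomputable def xR : RR σ := ⟨xB k, xB_mem_RR⟩

/-- The element `f_m` of `R`. -/
noncomputable def fR (m : ℕ) : RR σ := ⟨fB σ m, fB_mem_RR m⟩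

theorem evR_x0 : evR σ (x0 k) = xR σ := Subtype.ext (ev_x0 σ)

theorem evR_SE (m : ℕ) : evR σ (SE σ m) = xR σ ^ m * fR σ m := Subtype.ext (ev_SE σ m)

/-- The variable `z`. -/
noncomputable def zE (k : Type) [Field k] : E0 k := Polynomial.C Polynomial.X

/-- The variable `y`. -/
noncomputable def yE (k : Type) [Field k] : E0 k := Polynomial.X

theorem exists_coords (a : E0 k) : ∃ (c : k) (a1 a2 a3 : E0 k),
    a = Polynomial.C (Polynomial.C (Polynomial.C c)) + x0 k * a1 + yE k * a2 + zE k * a3 := by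
  refine ⟨((a.coeff 0).coeff 0).coeff 0, Polynomial.C (Polynomial.C ((a.coeff 0).coeff 0).divX),
    a.divX, Polynomial.C (a.coeff 0).divX, ?_⟩
  have h1 := Polynomial.divX_mul_X_add a
  have h2 := Polynomial.divX_mul_X_add (a.coeff 0)
  have h3 := Polynomial.divX_mul_X_add ((a.coeff 0).coeff 0)
  conv_lhs => rw [← h1, ← h2, ← h3]
  simp only [x0, yE, zE, map_add, map_mul]
  ring

theorem dn_ev_C (c : k) : dn k (ev σ (Polynomial.C (Polynomial.C (Polynomial.C c)))) = c := by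
  simp [dn_apply, ev, evP, evA]

theorem dn_ev (hσ : constantCoeff σ = 0) (c : k) (a1 a2 a3 : E0 k) :
    dn k (ev σ (Polynomial.C (Polynomial.C (Polynomial.C c)) + x0 k * a1 + yE k * a2 + zE k * a3))
      = c := by
  have h1 : dn k (ev σ (x0 k)) = 0 := by
    rw [ev_x0]; simp [dn_apply, xB, xP]
  have h2 : dn k (ev σ (yE k)) = 0 := by
    simp [dn_apply, ev, yE, evP_y, ZP, hσ]
  have h3 : dn k (ev σ (zE k)) = 0 := by
    simp [dn_apply, ev, zE, evP_z, ZP]
  simp only [map_add, map_mul, dn_ev_C, h1, h2, h3]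
  ring

theorem maxR_eq (hσ : constantCoeff σ = 0) : IsLocalRing.maximalIdeal (RR σ) =
    Ideal.span {xR σ, evR σ (yE k), evR σ (zE k)} := by
  apply le_antisymm
  · intro t ht
    rw [mem_maxR] at ht
    obtain ⟨a, b, h1, t', h2, h3⟩ := approx1 hσ t.2
    obtain ⟨c, a1, a2, a3, ha⟩ := exists_coords a
    have hc : c = 0 := by
      rw [← dn_ev σ hσ c a1 a2 a3, ← ha]
      have : ev σ a = ev σ b * t - xB k * t' := by rw [h3]; ring
      rw [this, map_sub, map_mul, map_mul]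
      have h4 : dn k (t : BB k) = 0 := ht
      have h5 : dn k (xB k) = 0 := by simp [dn_apply, xB, xP]
      rw [h4, h5]; ring
    have hu : IsUnit (evR σ b) := by
      rw [← isUnit_map_iff (dR σ), isUnit_iff_ne_zero]
      exact h1
    have h6 : evR σ b * t = evR σ a + xR σ * ⟨t', h2⟩ := Subtype.ext h3
    have h7 : evR σ b * t ∈ Ideal.span {xR σ, evR σ (yE k), evR σ (zE k)} := by
      rw [h6, ha, hc]
      simp only [map_add, map_mul, map_zero, evR_x0, zero_add]
      have hx : xR σ ∈ Ideal.span {xR σ, evR σ (yE k), evR σ (zE k)} :=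
        Ideal.subset_span (by simp)
      have hy : evR σ (yE k) ∈ Ideal.span {xR σ, evR σ (yE k), evR σ (zE k)} :=
        Ideal.subset_span (by simp)
      have hz : evR σ (zE k) ∈ Ideal.span {xR σ, evR σ (yE k), evR σ (zE k)} :=
        Ideal.subset_span (by simp)
      exact Ideal.add_mem _ (Ideal.add_mem _ (Ideal.add_mem _ (Ideal.mul_mem_right _ _ hx)
        (Ideal.mul_mem_right _ _ hy)) (Ideal.mul_mem_right _ _ hz)) (Ideal.mul_mem_right _ _ hx)
    exact (Ideal.unit_mul_mem_iff_mem _ hu).1 h7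
  · rw [Ideal.span_le]
    rintro t ht
    simp only [Set.mem_insert_iff, Set.mem_singleton_iff] at ht
    rw [SetLike.mem_coe, mem_maxR]
    have h1 : dn k (ev σ (x0 k)) = 0 := by
      rw [ev_x0]; simp [dn_apply, xB, xP]
    have h2 : dn k (ev σ (yE k)) = 0 := by
      simp [dn_apply, ev, yE, evP_y, ZP, hσ]
    have h3 : dn k (ev σ (zE k)) = 0 := by
      simp [dn_apply, ev, zE, evP_z, ZP]
    rcases ht with rfl | rfl | rfl
    · rw [← evR_x0]; exact h1
    · exact h2
    · exact h3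

/-- Every ideal of `R` containing a power of `x` is finitely generated. -/
theorem fg_of_x_pow_mem (hσ : constantCoeff σ = 0) {I : Ideal (RR σ)} {n : ℕ}
    (hI : xR σ ^ n ∈ I) : I.FG := by
  have h1 : (I.comap (evR σ)).FG := IsNoetherian.noetherian _
  have h2 : I = (I.comap (evR σ)).map (evR σ) ⊔ Ideal.span {xR σ ^ n} := by
    apply le_antisymm
    · intro t ht
      obtain ⟨a, b, h3, t', h4, h5⟩ := approx hσ t.2 n
      have hu : IsUnit (evR σ b) := by
        rw [← isUnit_map_iff (dR σ), isUnit_iff_ne_zero]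
        exact h3
      have h6 : evR σ b * t = evR σ a + xR σ ^ n * ⟨t', h4⟩ := Subtype.ext h5
      have h7 : evR σ a ∈ I := by
        have : evR σ a = evR σ b * t - xR σ ^ n * ⟨t', h4⟩ := by rw [h6]; ring
        rw [this]
        exact I.sub_mem (I.mul_mem_left _ ht) (I.mul_mem_right _ hI)
      have h8 : evR σ b * t ∈ (I.comap (evR σ)).map (evR σ) ⊔ Ideal.span {xR σ ^ n} := by
        rw [h6]
        apply Ideal.add_mem
        · exact Ideal.mem_sup_left (Ideal.mem_map_of_mem _ h7)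
        · exact Ideal.mem_sup_right (Ideal.mul_mem_right _ _ (Ideal.mem_span_singleton_self _))
      exact (Ideal.unit_mul_mem_iff_mem _ hu).1 h8
    · apply sup_le (Ideal.map_comap_le)
      rw [Ideal.span_singleton_le_iff_mem]
      exact hI
  rw [h2]
  exact Submodule.FG.sup (h1.map _) ⟨{xR σ ^ n}, by simp [Ideal.submodule_span_eq]⟩

end types

end Pool.Agent.H945B
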