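import Pool.Agent.H945B.A3

set_option autoImplicit false
set_option linter.style.haveILetI false

namespace Pool.Agent.H945B

open PowerSeries

section filtration

variable {k : Type} [Field k]

/-- The filtration of `P` by the powers of its maximal ideal. -/
noncomputable def FF (k : Type) [Field k] (j : ℕ) : Ideal (PP k) where
  carrier := {p | ∀ i, (X : PowerSeries k) ^ (j - i) ∣ coeff i p}
  add_mem' := by
    intro a b ha hb i
    rw [map_add]
    exact dvd_add (ha i) (hb i)
  zero_mem' := by intro i; simp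
  smul_mem' := by
    intro c p hp i
    rw [smul_eq_mul, coeff_mul]
    apply Finset.dvd_sum
    intro ab hab
    apply Dvd.dvd.mul_left
    have h1 : ab.2 ≤ i := by
      have : ab.1 + ab.2 = i := by simpa using hab
      omega
    exact (pow_dvd_pow _ (by omega)).trans (hp ab.2)

theorem mem_FF {j : ℕ} {p : PP k} : p ∈ FF k j ↔ ∀ i, (X : PowerSeries k) ^ (j - i) ∣ coeff i p :=
  Iff.rfl

theorem FF_mul {a b : ℕ} {p q : PP k} (hp : p ∈ FF k a) (hq : q ∈ FF k b) :
    p * q ∈ FF k (a + b) := by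
  intro i
  rw [coeff_mul]
  apply Finset.dvd_sum
  intro ab hab
  have h1 : ab.1 + ab.2 = i := by simpa using hab
  have h2 := mul_dvd_mul (hp ab.1) (hq ab.2)
  rw [← pow_add] at h2
  exact (pow_dvd_pow _ (by omega)).trans h2

theorem FF_le {a b : ℕ} (h : a ≤ b) : FF k b ≤ FF k a := by
  intro p hp i
  exact (pow_dvd_pow _ (by omega)).trans (hp i)

theorem FF_one {p : PP k} : p ∈ FF k 1 ↔ constantCoeff (constantCoeff p) = 0 := by
  constructor
  · intro h
    have := h 0
    rw [Nat.sub_zero, pow_one, X_dvd_iff] at this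
    simpa using this
  · intro h i
    cases i with
    | zero =>
      rw [Nat.sub_zero, pow_one, X_dvd_iff]
      simpa using h
    | succ i => simp

theorem FF_X {j : ℕ} {p : PP k} : X * p ∈ FF k (j + 1) ↔ p ∈ FF k j := by
  constructor
  · intro h i
    have := h (i + 1)
    rw [coeff_succ_X_mul] at this
    simpa using this
  · intro h
    have h1 : (X : PP k) ∈ FF k 1 := by rw [FF_one]; simp
    rw [add_comm]
    exact FF_mul h1 h

theorem FF_unit {j : ℕ} {u p : PP k} (hu : IsUnit u) : u * p ∈ FF k j ↔ p ∈ FF k j :=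
  Ideal.unit_mul_mem_iff_mem _ hu

theorem isUnit_1X : IsUnit (1 - X : PP k) := by
  rw [isUnit_iff_constantCoeff]
  simp

theorem FF_Z {j : ℕ} {p : PP k} : ZP k * p ∈ FF k (j + 1) ↔ p ∈ FF k j := by
  have : ZP k * p = (1 - X) * (X * p) := by unfold ZP; ring
  rw [this, FF_unit isUnit_1X, FF_X]

theorem FF_C {j : ℕ} {c : PowerSeries k} (h : (X : PowerSeries k) ^ j ∣ c) : (C c : PP k) ∈ FF k j := by
  intro i
  cases i with
  | zero => simpa using h
  | succ i => simp [coeff_C]

theorem mul_mem_pow_succ {A : Type*} [CommRing A] {I : Ideal A} {j : ℕ} {a b : A}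
    (ha : a ∈ I ^ j) (hb : b ∈ I) : a * b ∈ I ^ (j + 1) := by
  rw [pow_succ]
  exact Ideal.mul_mem_mul ha hb

/-- Polynomials in the filtration. -/
theorem evA_mem {j : ℕ} : ∀ {A : Polynomial (Polynomial k)}, evA k A ∈ FF k j →
    A ∈ (Ideal.span {Polynomial.C Polynomial.X, Polynomial.X} :
      Ideal (Polynomial (Polynomial k))) ^ j := by
  induction j with
  | zero => intro A _; simp
  | succ j ih =>
    intro A hA
    have h1 := Polynomial.divX_mul_X_add A
    have h2 : evA k A = evA k A.divX * ZP k + C ((A.coeff 0 : Polynomial k) : PowerSeries k) := by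
      conv_lhs => rw [← h1]
      simp [evA]
    have h3 : (X : PowerSeries k) ^ (j + 1) ∣ ((A.coeff 0 : Polynomial k) : PowerSeries k) := by
      have := hA 0
      rw [h2] at this
      simpa [ZP] using this
    have h4 : evA k A.divX ∈ FF k j := by
      rw [← FF_Z, mul_comm]
      have : evA k A.divX * ZP k = evA k A - C ((A.coeff 0 : Polynomial k) : PowerSeries k) := by
        rw [h2]; ring
      rw [this]
      exact Ideal.sub_mem _ hA (FF_C h3)
    have h5 : (Polynomial.X : Polynomial k) ^ (j + 1) ∣ A.coeff 0 := by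
      rw [Polynomial.X_pow_dvd_iff]
      rw [PowerSeries.X_pow_dvd_iff] at h3
      intro d hd
      simpa using h3 d hd
    obtain ⟨c, hc⟩ := h5
    rw [← h1, hc]
    apply Ideal.add_mem
    · exact mul_mem_pow_succ (ih h4) (Ideal.subset_span (by simp))
    · rw [map_mul, map_pow]
      exact Ideal.mul_mem_right _ _ (Ideal.pow_mem_pow (Ideal.subset_span (by simp)) _)

end filtration

section powers

variable {k : Type} [Field k] (σ : PowerSeries k)

theorem maxT_pow_le (j : ℕ) {t : TT k} (h : t ∈ (IsLocalRing.maximalIdeal (TT k)) ^ j) :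
    (t : BB k).1 ∈ FF k j ∧ (t : BB k).2 ∈ FF k j := by
  induction j generalizing t with
  | zero =>
    constructor <;> (intro i; simp)
  | succ j ih =>
    rw [pow_succ] at h
    induction h using Submodule.mul_induction_on' with
    | mem_mul_mem a ha b hb =>
      have h1 := ih ha
      have h2 : constantCoeff (constantCoeff (b : BB k).1) = 0 := (mem_maxT b).1 hb
      have h3 : constantCoeff (constantCoeff (b : BB k).2) = 0 := by
        rw [← (mem_TT.1 b.2)]; exact h2
      exact ⟨FF_mul h1.1 (FF_one.2 h2), FF_mul h1.2 (FF_one.2 h3)⟩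
    | add a _ b _ ha hb => exact ⟨Ideal.add_mem _ ha.1 hb.1, Ideal.add_mem _ ha.2 hb.2⟩

/-- The inclusion `R → T`. -/
noncomputable def iRT : RR σ →+* TT k := Subring.inclusion RR_le_TT

theorem iRT_max {t : RR σ} (h : t ∈ IsLocalRing.maximalIdeal (RR σ)) :
    iRT σ t ∈ IsLocalRing.maximalIdeal (TT k) := by
  rw [mem_maxT]
  rw [mem_maxR] at h
  exact h

theorem map_maxR_le : (IsLocalRing.maximalIdeal (RR σ)).map (iRT σ) ≤
    IsLocalRing.maximalIdeal (TT k) := by
  rw [Ideal.map_le_iff_le_comap]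
  intro t ht
  exact iRT_max σ ht

theorem maxR_pow_le (j : ℕ) {t : RR σ} (h : t ∈ (IsLocalRing.maximalIdeal (RR σ)) ^ j) :
    (t : BB k).1 ∈ FF k j ∧ (t : BB k).2 ∈ FF k j := by
  have h1 : iRT σ t ∈ (IsLocalRing.maximalIdeal (TT k)) ^ j := by
    have h2 := Ideal.mem_map_of_mem (iRT σ) h
    rw [Ideal.map_pow] at h2
    exact Ideal.pow_right_mono (map_maxR_le σ) j h2
  exact maxT_pow_le j h1

/-- `R = E_0 + 𝔪^j`. -/
theorem dense_R (j : ℕ) (t : RR σ) (hσ : constantCoeff σ = 0) :
    ∃ e : E0 k, t - evR σ e ∈ (IsLocalRing.maximalIdeal (RR σ)) ^ j := by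
  induction j generalizing t with
  | zero => exact ⟨0, by simp⟩
  | succ j ih =>
    set c : E0 k := Polynomial.C (Polynomial.C (Polynomial.C (dR σ t))) with hc
    have h1 : t - evR σ c ∈ IsLocalRing.maximalIdeal (RR σ) := by
      rw [mem_maxR, map_sub, sub_eq_zero]
      exact (dn_ev_C σ _).symm
    have h1' := h1
    rw [maxR_eq σ hσ, Ideal.mem_span_insert] at h1
    obtain ⟨a1, w, hw, h2⟩ := h1
    rw [Ideal.mem_span_pair] at hw
    obtain ⟨a2, a3, h3⟩ := hw
    obtain ⟨e1, he1⟩ := ih a1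
    obtain ⟨e2, he2⟩ := ih a2
    obtain ⟨e3, he3⟩ := ih a3
    refine ⟨c + (e1 * x0 k + e2 * yE k + e3 * zE k), ?_⟩
    have hx : xR σ ∈ IsLocalRing.maximalIdeal (RR σ) := by
      rw [maxR_eq σ hσ]; exact Ideal.subset_span (by simp)
    have hy : evR σ (yE k) ∈ IsLocalRing.maximalIdeal (RR σ) := by
      rw [maxR_eq σ hσ]; exact Ideal.subset_span (by simp)
    have hz : evR σ (zE k) ∈ IsLocalRing.maximalIdeal (RR σ) := by
      rw [maxR_eq σ hσ]; exact Ideal.subset_span (by simp)
    have h4 : t - evR σ (c + (e1 * x0 k + e2 * yE k + e3 * zE k)) =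
        (a1 - evR σ e1) * xR σ + (a2 - evR σ e2) * evR σ (yE k) +
          (a3 - evR σ e3) * evR σ (zE k) := by
      simp only [map_add, map_mul, evR_x0]
      have : t = evR σ c + (a1 * xR σ + w) := by rw [← h2]; ring
      rw [this, ← h3]
      ring
    rw [h4, pow_succ]
    exact Ideal.add_mem _ (Ideal.add_mem _ (Ideal.mul_mem_mul he1 hx) (Ideal.mul_mem_mul he2 hy))
      (Ideal.mul_mem_mul he3 hz)

theorem SE_monic (m : ℕ) : (SE σ m).Monic ∧ (SE σ m).natDegree = 2 := by
  have h1 : SE σ m = Polynomial.X ^ 2 + (Polynomial.C (-Polynomial.X -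
      2 * Polynomial.C (trunc m σ)) * Polynomial.X + Polynomial.C (
        (Polynomial.C (trunc m σ)) ^ 2 + Polynomial.X * Polynomial.C (trunc m σ) +
          Polynomial.X ^ 3)) := by
    unfold SE tE
    simp only [Polynomial.C_add, Polynomial.C_sub, Polynomial.C_neg, Polynomial.C_mul,
      Polynomial.C_pow]
    have h2 : (Polynomial.C 2 : E0 k) = 2 := rfl
    rw [h2]
    ring
  have h3 : (Polynomial.C (-Polynomial.X -
      2 * Polynomial.C (trunc m σ)) * Polynomial.X + Polynomial.C (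
        (Polynomial.C (trunc m σ)) ^ 2 + Polynomial.X * Polynomial.C (trunc m σ) +
          Polynomial.X ^ 3) : E0 k).degree < 2 := by
    refine lt_of_le_of_lt (Polynomial.degree_linear_le) ?_
    norm_num
  rw [h1]
  constructor
  · exact Polynomial.monic_X_pow_add (by exact_mod_cast h3)
  · apply Polynomial.natDegree_eq_of_degree_eq_some
    rw [Polynomial.degree_add_eq_left_of_degree_lt]
    · simp
    · rw [Polynomial.degree_X_pow]
      exact_mod_cast h3

theorem span_pow_map (j : ℕ) (hσ : constantCoeff σ = 0) {A : Polynomial (Polynomial k)}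
    (hA : A ∈ (Ideal.span {Polynomial.C Polynomial.X, Polynomial.X} :
      Ideal (Polynomial (Polynomial k))) ^ j) :
    evR σ (Polynomial.C A) ∈ (IsLocalRing.maximalIdeal (RR σ)) ^ j := by
  have h1 : (Ideal.span {Polynomial.C Polynomial.X, Polynomial.X} :
      Ideal (Polynomial (Polynomial k))).map ((evR σ).comp Polynomial.C) ≤
      IsLocalRing.maximalIdeal (RR σ) := by
    rw [Ideal.map_span, Ideal.span_le]
    rintro _ ⟨a, ha, rfl⟩
    simp only [Set.mem_insert_iff, Set.mem_singleton_iff] at ha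
    rw [maxR_eq σ hσ]
    apply Ideal.subset_span
    rcases ha with rfl | rfl
    · left
      exact evR_x0 σ
    · right; right
      rfl
  have h2 := Ideal.mem_map_of_mem ((evR σ).comp Polynomial.C) hA
  rw [Ideal.map_pow] at h2
  exact Ideal.pow_right_mono h1 j h2

theorem two_sub_unit : IsUnit (1 - 2 * X : PP k) := by
  rw [isUnit_iff_constantCoeff]
  simp

/-- The filtration on `T` induces the `𝔪`-adic filtration on `R`. -/
theorem mem_maxR_pow (hσ : constantCoeff σ = 0) (j : ℕ) {t : RR σ}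
    (h1 : (t : BB k).1 ∈ FF k j) (h2 : (t : BB k).2 ∈ FF k j) :
    t ∈ (IsLocalRing.maximalIdeal (RR σ)) ^ j := by
  cases j with
  | zero => simp
  | succ j =>
  obtain ⟨e, he⟩ := dense_R σ (j + 1) t hσ
  obtain ⟨q, a, b, hq⟩ := exists_rem (SE_monic σ (j + 1)).1 (SE_monic σ (j + 1)).2 e
  have hS : evR σ (SE σ (j + 1) * q) ∈ (IsLocalRing.maximalIdeal (RR σ)) ^ (j + 1) := by
    rw [map_mul, evR_SE]
    apply Ideal.mul_mem_right
    apply Ideal.mul_mem_right
    apply Ideal.pow_mem_pow
    rw [maxR_eq σ hσ]; exact Ideal.subset_span (by simp)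
  set r : E0 k := Polynomial.C a + Polynomial.C b * Polynomial.X with hr
  have h3 : t - evR σ r ∈ (IsLocalRing.maximalIdeal (RR σ)) ^ (j + 1) := by
    have h' : evR σ e = evR σ (SE σ (j + 1) * q) + evR σ r := by
      rw [hq]; exact map_add _ _ _
    have : t - evR σ r = (t - evR σ e) + evR σ (SE σ (j + 1) * q) := by
      rw [h']; ring
    rw [this]
    exact Ideal.add_mem _ he hS
  have h4 := maxR_pow_le σ (j + 1) h3
  have h5 : evP σ X r ∈ FF k (j + 1) := by
    have : evP σ X r = (t : BB k).1 - ((t - evR σ r : RR σ) : BB k).1 := by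
      change _ = (t : BB k).1 - ((t : BB k).1 - (ev σ r).1)
      simp [ev]
    rw [this]
    exact Ideal.sub_mem _ h1 h4.1
  have h6 : evP σ (1 - X) r ∈ FF k (j + 1) := by
    have : evP σ (1 - X) r = (t : BB k).2 - ((t - evR σ r : RR σ) : BB k).2 := by
      change _ = (t : BB k).2 - ((t : BB k).2 - (ev σ r).2)
      simp [ev]
    rw [this]
    exact Ideal.sub_mem _ h2 h4.2
  have h7 : ∀ u : PP k, evP σ u r = evA k a + evA k b * (C σ + u * ZP k) := by
    intro u
    simp [hr, evP]
  rw [h7] at h5 h6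
  have h8 : evA k b ∈ FF k j := by
    have h9 := Ideal.sub_mem _ h6 h5
    have h10 : evA k a + evA k b * (C σ + (1 - X) * ZP k) - (evA k a + evA k b * (C σ + X * ZP k))
      = (1 - 2 * X) * (ZP k * evA k b) := by ring
    rw [h10, FF_unit two_sub_unit, FF_Z] at h9
    exact h9
  have h9 : evA k a ∈ FF k (j + 1) := by
    have h10 : (C σ + X * ZP k : PP k) ∈ FF k 1 := by
      rw [FF_one]; simp [hσ]
    have h11 := FF_mul h8 h10
    have : evA k a = (evA k a + evA k b * (C σ + X * ZP k)) - evA k b * (C σ + X * ZP k) := by ring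
    rw [this]
    exact Ideal.sub_mem _ h5 h11
  have h10 := span_pow_map σ (j + 1) hσ (evA_mem h9)
  have h11 := span_pow_map σ j hσ (evA_mem h8)
  have h12 : evR σ r ∈ (IsLocalRing.maximalIdeal (RR σ)) ^ (j + 1) := by
    rw [hr, map_add, map_mul]
    apply Ideal.add_mem _ h10
    rw [pow_succ]
    apply Ideal.mul_mem_mul h11
    rw [maxR_eq σ hσ]; exact Ideal.subset_span (by simp [yE])
  have : t = (t - evR σ r) + evR σ r := by ring
  rw [this]
  exact Ideal.add_mem _ h3 h12

theorem maxT_eq (hσ : constantCoeff σ = 0) : IsLocalRing.maximalIdeal (TT k) =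
    (IsLocalRing.maximalIdeal (RR σ)).map (iRT σ) := by
  apply le_antisymm _ (map_maxR_le σ)
  rintro ⟨⟨f, g⟩, ht⟩ h
  rw [mem_maxT] at h
  have h1 : constantCoeff f = constantCoeff g := ht
  have h2 : (X : PP k) ∣ f - g := by
    rw [X_dvd_iff, map_sub, h1, sub_self]
  obtain ⟨h', hh⟩ := h2
  -- divide by `y_1 - y_2 = (2X - 1) Z`
  have hu : IsUnit ((2 * X - 1) * (1 - X) : PP k) := by
    rw [isUnit_iff_constantCoeff]; simp
  obtain ⟨v, hv⟩ := hu.exists_right_inv
  set q : PP k := h' * v with hq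
  have hfg : f - g = q * ((2 * X - 1) * ZP k) := by
    rw [hh, hq]
    unfold ZP
    linear_combination (-X * h') * hv
  set y1 : PP k := C σ + X * ZP k with hy1
  set y2 : PP k := C σ + (1 - X) * ZP k with hy2
  set p : PP k := f - q * y1 with hp
  have hf : f = p + q * y1 := by rw [hp]; ring
  have hg : g = p + q * y2 := by
    have : g = f - (f - g) := by ring
    rw [this, hfg, hp, hy1, hy2]; ring
  have hp0 : constantCoeff (constantCoeff p) = 0 := by
    have h3 : constantCoeff (constantCoeff f) = 0 := h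
    rw [hp, hy1]
    simp [h3, hσ, ZP]
  -- write `p = x p' + Z p''`
  obtain ⟨c, hc⟩ : (X : PowerSeries k) ∣ constantCoeff p := by
    rw [X_dvd_iff]; exact hp0
  obtain ⟨p1, hp1⟩ : (X : PP k) ∣ p - C (constantCoeff p) := by
    rw [X_dvd_iff, map_sub, constantCoeff_C, sub_self]
  obtain ⟨w, hw⟩ := (isUnit_1X (k := k)).exists_right_inv
  have hp2 : p = xP k * C c + ZP k * (w * p1) := by
    have h3 : p = C (constantCoeff p) + X * p1 := by rw [← hp1]; ring
    rw [h3, hc, map_mul, xP]
    unfold ZP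
    linear_combination (-X * p1) * hw
  -- conclusion
  have hdiag : ∀ r : PP k, ((r, r) : BB k) ∈ TT k := fun r => rfl
  have hx : iRT σ (xR σ) ∈ (IsLocalRing.maximalIdeal (RR σ)).map (iRT σ) := by
    apply Ideal.mem_map_of_mem
    rw [maxR_eq σ hσ]; exact Ideal.subset_span (by simp)
  have hy : iRT σ (evR σ (yE k)) ∈ (IsLocalRing.maximalIdeal (RR σ)).map (iRT σ) := by
    apply Ideal.mem_map_of_mem
    rw [maxR_eq σ hσ]; exact Ideal.subset_span (by simp)
  have hz : iRT σ (evR σ (zE k)) ∈ (IsLocalRing.maximalIdeal (RR σ)).map (iRT σ) := by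
    apply Ideal.mem_map_of_mem
    rw [maxR_eq σ hσ]; exact Ideal.subset_span (by simp)
  have h3 : (⟨(f, g), ht⟩ : TT k) = iRT σ (xR σ) * ⟨(C c, C c), hdiag _⟩ +
      iRT σ (evR σ (zE k)) * ⟨(w * p1, w * p1), hdiag _⟩ +
        iRT σ (evR σ (yE k)) * ⟨(q, q), hdiag _⟩ := by
    apply Subtype.ext
    apply Prod.ext
    · change f = xP k * C c + evP σ X (zE k) * (w * p1) + evP σ X (yE k) * q
      rw [zE, evP_z, yE, evP_y]
      conv_lhs => rw [hf, hp2]
      ring
    · change g = xP k * C c + evP σ (1 - X) (zE k) * (w * p1) + evP σ (1 - X) (yE k) * q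
      rw [zE, evP_z, yE, evP_y]
      conv_lhs => rw [hg, hp2]
      ring
  rw [h3]
  exact Ideal.add_mem _ (Ideal.add_mem _ (Ideal.mul_mem_right _ _ hx) (Ideal.mul_mem_right _ _ hz))
    (Ideal.mul_mem_right _ _ hy)

/-- `T = R + 𝔪_T^j`. -/
theorem dense_T (hσ : constantCoeff σ = 0) (j : ℕ) (t : TT k) :
    ∃ r : RR σ, t - iRT σ r ∈ (IsLocalRing.maximalIdeal (TT k)) ^ j := by
  induction j generalizing t with
  | zero => exact ⟨0, by simp⟩
  | succ j ih =>
    set c : RR σ := evR σ (Polynomial.C (Polynomial.C (Polynomial.C (dT k t)))) with hc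
    have h1 : t - iRT σ c ∈ IsLocalRing.maximalIdeal (TT k) := by
      rw [mem_maxT, map_sub, sub_eq_zero]
      exact (dn_ev_C σ _).symm
    have h2 : ∀ s ∈ (IsLocalRing.maximalIdeal (RR σ)).map (iRT σ), ∃ r : RR σ,
        s - iRT σ r ∈ (IsLocalRing.maximalIdeal (TT k)) ^ (j + 1) := by
      intro s hs
      induction hs using Submodule.span_induction with
      | mem s hs =>
        obtain ⟨r, -, rfl⟩ := hs
        exact ⟨r, by simp⟩
      | zero => exact ⟨0, by simp⟩
      | add a b _ _ ha hb =>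
        obtain ⟨r1, h1⟩ := ha
        obtain ⟨r2, h2⟩ := hb
        refine ⟨r1 + r2, ?_⟩
        have : a + b - iRT σ (r1 + r2) = (a - iRT σ r1) + (b - iRT σ r2) := by
          rw [map_add]; ring
        rw [this]
        exact Ideal.add_mem _ h1 h2
      | smul a b hb' hb =>
        obtain ⟨r2, h2⟩ := hb
        obtain ⟨r1, h1⟩ := ih a
        refine ⟨r1 * r2, ?_⟩
        have h3 : a * b - iRT σ (r1 * r2) = (a - iRT σ r1) * b + iRT σ r1 * (b - iRT σ r2) := by
          rw [map_mul]; ring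
        rw [smul_eq_mul, h3]
        apply Ideal.add_mem
        · rw [pow_succ]
          exact Ideal.mul_mem_mul h1 (map_maxR_le σ hb')
        · exact Ideal.mul_mem_left _ _ h2
    rw [maxT_eq σ hσ] at h1
    obtain ⟨r, hr⟩ := h2 _ h1
    refine ⟨c + r, ?_⟩
    have : t - iRT σ (c + r) = t - iRT σ c - iRT σ r := by rw [map_add]; ring
    rw [this]
    exact hr

/-- Ideals of `R` containing a power of `x` are closed. -/
theorem closed (hσ : constantCoeff σ = 0) {I : Ideal (RR σ)} {n : ℕ} (hI : xR σ ^ n ∈ I)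
    {r : RR σ} (hr : iRT σ r ∈ I.map (iRT σ)) : r ∈ I := by
  have h1 : ∀ j, ∃ i ∈ I, r - i ∈ (IsLocalRing.maximalIdeal (RR σ)) ^ j := by
    intro j
    have h2 : ∀ s ∈ I.map (iRT σ), ∃ i ∈ I, s - iRT σ i ∈
        (IsLocalRing.maximalIdeal (TT k)) ^ j := by
      intro s hs
      induction hs using Submodule.span_induction with
      | mem s hs =>
        obtain ⟨r, hr, rfl⟩ := hs
        exact ⟨r, hr, by simp⟩
      | zero => exact ⟨0, I.zero_mem, by simp⟩
      | add a b _ _ ha hb =>
        obtain ⟨r1, h0, h1⟩ := ha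
        obtain ⟨r2, h0', h2⟩ := hb
        refine ⟨r1 + r2, I.add_mem h0 h0', ?_⟩
        have : a + b - iRT σ (r1 + r2) = (a - iRT σ r1) + (b - iRT σ r2) := by
          rw [map_add]; ring
        rw [this]
        exact Ideal.add_mem _ h1 h2
      | smul a b hb' hb =>
        obtain ⟨r2, h0, h2⟩ := hb
        obtain ⟨r1, h1⟩ := dense_T σ hσ j a
        refine ⟨r1 * r2, I.mul_mem_left _ h0, ?_⟩
        have h3 : a * b - iRT σ (r1 * r2) = (a - iRT σ r1) * b + iRT σ r1 * (b - iRT σ r2) := by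
          rw [map_mul]; ring
        rw [smul_eq_mul, h3]
        exact Ideal.add_mem _ (Ideal.mul_mem_right _ _ h1) (Ideal.mul_mem_left _ _ h2)
    obtain ⟨i, h3, h4⟩ := h2 _ hr
    refine ⟨i, h3, ?_⟩
    rw [← map_sub] at h4
    have h5 := maxT_pow_le j h4
    exact mem_maxR_pow σ hσ j h5.1 h5.2
  by_cases htop : I = ⊤
  · rw [htop]; trivial
  have hnoeth : IsNoetherianRing (RR σ ⧸ I) := by
    constructor
    intro J
    have h2 : (Ideal.comap (Ideal.Quotient.mk I) J).FG := by
      apply fg_of_x_pow_mem σ hσ (n := n)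
      rw [Ideal.mem_comap, Ideal.Quotient.eq_zero_iff_mem.2 hI]
      exact J.zero_mem
    have h3 := h2.map (Ideal.Quotient.mk I)
    rwa [Ideal.map_comap_of_surjective _ Ideal.Quotient.mk_surjective] at h3
  have hnt : Nontrivial (RR σ ⧸ I) := Ideal.Quotient.nontrivial_iff.2 htop
  have hloc : IsLocalRing (RR σ ⧸ I) :=
    IsLocalRing.of_surjective' (Ideal.Quotient.mk I) Ideal.Quotient.mk_surjective
  have h2 : Ideal.Quotient.mk I r ∈ (⨅ j : ℕ, (IsLocalRing.maximalIdeal (RR σ ⧸ I)) ^ j :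
      Ideal (RR σ ⧸ I)) := by
    rw [Ideal.mem_iInf]
    intro j
    obtain ⟨i, h3, h4⟩ := h1 j
    have h5 : Ideal.Quotient.mk I r = Ideal.Quotient.mk I (r - i) := by
      rw [map_sub, Ideal.Quotient.eq_zero_iff_mem.2 h3, sub_zero]
    rw [h5]
    have h6 := Ideal.mem_map_of_mem (Ideal.Quotient.mk I) h4
    rw [Ideal.map_pow] at h6
    refine Ideal.pow_right_mono ?_ j h6
    apply IsLocalRing.le_maximalIdeal
    intro h7
    have h8 : (IsLocalRing.maximalIdeal (RR σ)).map (Ideal.Quotient.mk I) ≠ ⊤ := by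
      intro h9
      have h10 := congrArg (Ideal.comap (Ideal.Quotient.mk I)) h9
      rw [Ideal.comap_map_of_surjective _ Ideal.Quotient.mk_surjective, Ideal.comap_top] at h10
      have h11 : IsLocalRing.maximalIdeal (RR σ) ⊔ Ideal.comap (Ideal.Quotient.mk I) ⊥ ≤
          IsLocalRing.maximalIdeal (RR σ) := by
        apply sup_le le_rfl
        rw [← RingHom.ker_eq_comap_bot, Ideal.mk_ker]
        exact IsLocalRing.le_maximalIdeal htop
      rw [h10, top_le_iff] at h11
      exact (IsLocalRing.maximalIdeal.isMaximal (RR σ)).ne_top h11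
    exact h8 h7
  rw [Ideal.iInf_pow_eq_bot_of_isLocalRing _ (IsLocalRing.maximalIdeal.isMaximal _).ne_top] at h2
  exact Ideal.Quotient.eq_zero_iff_mem.1 h2

end powers

end Pool.Agent.H945B
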