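import Pool.Agent.H945B.A4

set_option autoImplicit false
set_option linter.style.haveILetI false

namespace Pool.Agent.H945B

open PowerSeries

/-- Elimination. -/
theorem elim {A : Type} [CommRing A] [IsDomain A] [UniqueFactorizationMonoid A]
    {p g : Polynomial A} (hp : Irreducible p) (hg : ¬ p ∣ g) :
    ∃ c : A, c ≠ 0 ∧ ∃ u v : Polynomial A, Polynomial.C c = u * p + v * g := by
  classical
  obtain ⟨inst⟩ : Nonempty (NormalizedGCDMonoid A) := inferInstance
  by_cases hdeg : p.natDegree = 0
  · obtain ⟨c, hc⟩ := Polynomial.natDegree_eq_zero.1 hdeg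
    refine ⟨c, ?_, 1, 0, by rw [hc]; ring⟩
    rintro rfl
    rw [← hc, Polynomial.C_0] at hp
    exact hp.ne_zero rfl
  have hprim : p.IsPrimitive := hp.isPrimitive hdeg
  let K := FractionRing A
  have h1 : Irreducible (p.map (algebraMap A K)) :=
    (hprim.irreducible_iff_irreducible_map_fraction_map).1 hp
  have h2 : ¬ p.map (algebraMap A K) ∣ g.map (algebraMap A K) := by
    rintro ⟨r, hr⟩
    obtain ⟨b, hb, hb2⟩ := IsLocalization.integerNormalization_spec (nonZeroDivisors A) r
    set r' := IsLocalization.integerNormalization (nonZeroDivisors A) r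
    have h3 : Polynomial.C b * g = p * r' := by
      apply Polynomial.map_injective (algebraMap A K) (IsFractionRing.injective A K)
      rw [Polynomial.map_mul, Polynomial.map_mul, hb2, hr, Polynomial.map_C, Algebra.smul_def,
        Polynomial.algebraMap_apply]
      ring
    have h4 : p ∣ Polynomial.C b * g := ⟨r', h3⟩
    rcases (hp.prime.dvd_or_dvd h4) with h5 | h5
    · obtain ⟨s, hs⟩ := h5
      have h6 := congrArg Polynomial.natDegree hs
      have hb0 : b ≠ 0 := nonZeroDivisors.ne_zero hb
      have hs0 : s ≠ 0 := by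
        rintro rfl
        rw [mul_zero] at hs
        exact hb0 (Polynomial.C_eq_zero.1 hs)
      rw [Polynomial.natDegree_C, Polynomial.natDegree_mul hp.ne_zero hs0] at h6
      omega
    · exact hg h5
  have h3 : IsCoprime (p.map (algebraMap A K)) (g.map (algebraMap A K)) :=
    (h1.coprime_iff_not_dvd).2 h2
  obtain ⟨u, v, huv⟩ := h3
  obtain ⟨b, hb, hb2⟩ := IsLocalization.integerNormalization_spec (nonZeroDivisors A) u
  obtain ⟨c, hc, hc2⟩ := IsLocalization.integerNormalization_spec (nonZeroDivisors A) v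
  set u' := IsLocalization.integerNormalization (nonZeroDivisors A) u
  set v' := IsLocalization.integerNormalization (nonZeroDivisors A) v
  refine ⟨b * c, mul_ne_zero (nonZeroDivisors.ne_zero hb) (nonZeroDivisors.ne_zero hc),
    Polynomial.C c * u', Polynomial.C b * v', ?_⟩
  apply Polynomial.map_injective (algebraMap A K) (IsFractionRing.injective A K)
  simp only [Polynomial.map_add, Polynomial.map_mul, hb2, hc2, Polynomial.map_C, map_mul,
    Algebra.smul_def, Polynomial.algebraMap_apply]
  linear_combination (-Polynomial.C (algebraMap A K b) * Polynomial.C (algebraMap A K c)) * huv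

section

variable {k : Type} [Field k] (σ : PowerSeries k)

theorem xP_pow_dvd {f : PP k} (h : ∀ n, xP k ^ n ∣ f) : f = 0 := by
  ext i j
  obtain ⟨g, hg⟩ := h (j + 1)
  rw [hg, xP, ← map_pow, coeff_C_mul, map_zero, map_zero]
  have h1 : (X : PowerSeries k) ^ (j + 1) ∣ X ^ (j + 1) * coeff i g := dvd_mul_right _ _
  rw [X_pow_dvd_iff] at h1
  exact h1 j (by omega)

theorem eq_zero_of_fst {t : BB k} (hσ : constantCoeff σ = 0) (ht : t ∈ RR σ)
    (h : t.1 = 0 ∨ t.2 = 0) : t = 0 := by
  have h1 : ∀ n : ℕ, ∃ t' ∈ RR σ, t = xB k ^ n * t' := by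
    intro n
    induction n with
    | zero => exact ⟨t, ht, by simp⟩
    | succ n ih =>
      obtain ⟨t', h1, h2⟩ := ih
      have h3 : t'.1 = 0 ∨ t'.2 = 0 := by
        have hx : xP k ^ n ≠ 0 := pow_ne_zero _ xP_ne_zero
        rcases h with h | h
        · left
          have : t.1 = xP k ^ n * t'.1 := by rw [h2]; simp [xB]
          rw [h] at this
          exact (mul_eq_zero.1 this.symm).resolve_left hx
        · right
          have : t.2 = xP k ^ n * t'.2 := by rw [h2]; simp [xB]
          rw [h] at this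
          exact (mul_eq_zero.1 this.symm).resolve_left hx
      obtain ⟨t'', h4, h5⟩ := Q1 hσ h1 (h3.imp (fun h => by rw [h]; simp) (fun h => by rw [h]; simp))
      exact ⟨t'', h4, by rw [h2, h5]; ring⟩
  apply Prod.ext
  · apply xP_pow_dvd
    intro n
    obtain ⟨t', -, h2⟩ := h1 n
    exact ⟨t'.1, by rw [h2]; simp [xB]⟩
  · apply xP_pow_dvd
    intro n
    obtain ⟨t', -, h2⟩ := h1 n
    exact ⟨t'.2, by rw [h2]; simp [xB]⟩

theorem noZeroDiv (hσ : constantCoeff σ = 0) : IsDomain (RR σ) := by
  have : NoZeroDivisors (RR σ) := by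
    constructor
    intro a b hab
    have h1 : (a : BB k).1 * (b : BB k).1 = 0 := by
      have := congrArg (fun t : RR σ => (t : BB k).1) hab
      simpa using this
    rcases mul_eq_zero.1 h1 with h | h
    · left; exact Subtype.ext (eq_zero_of_fst σ hσ a.2 (Or.inl h))
    · right; exact Subtype.ext (eq_zero_of_fst σ hσ b.2 (Or.inl h))
  exact NoZeroDivisors.to_isDomain _

theorem xR_dvd_iff (hσ : constantCoeff σ = 0) {t : RR σ} : xR σ ∣ t ↔ xP k ∣ (t : BB k).1 := by
  constructor
  · rintro ⟨s, rfl⟩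
    exact ⟨(s : BB k).1, rfl⟩
  · intro h
    obtain ⟨t', h1, h2⟩ := Q1 hσ t.2 (Or.inl h)
    exact ⟨⟨t', h1⟩, Subtype.ext h2⟩

theorem xR_dvd_iff' (hσ : constantCoeff σ = 0) {t : RR σ} : xR σ ∣ t ↔ xP k ∣ (t : BB k).2 := by
  constructor
  · rintro ⟨s, rfl⟩
    exact ⟨(s : BB k).2, rfl⟩
  · intro h
    obtain ⟨t', h1, h2⟩ := Q1 hσ t.2 (Or.inr h)
    exact ⟨⟨t', h1⟩, Subtype.ext h2⟩

theorem xR_ne_zero : xR σ ≠ 0 := by
  intro h
  have := congrArg (fun t : RR σ => (t : BB k).1) h
  exact xP_ne_zero this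

theorem xR_prime (hσ : constantCoeff σ = 0) : Prime (xR σ) := by
  refine ⟨xR_ne_zero σ, ?_, ?_⟩
  · intro h
    have h1 : dR σ (xR σ) ≠ 0 := ((dR σ).isUnit_map h).ne_zero
    apply h1
    change dn k (xB k) = 0
    simp [dn_apply, xB, xP]
  · intro a b h
    rw [xR_dvd_iff σ hσ] at h ⊢
    rw [xR_dvd_iff σ hσ]
    exact xP_prime.dvd_or_dvd h

/-- Every nonzero element of `R` is a power of `x` times an element not divisible by `x`. -/
theorem exists_pow_mul {t : RR σ} (ht : t ≠ 0) :
    ∃ (n : ℕ) (s : RR σ), t = xR σ ^ n * s ∧ ¬ xR σ ∣ s := by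
  by_contra hcon
  push Not at hcon
  apply ht
  have h1 : ∀ n : ℕ, ∃ s : RR σ, t = xR σ ^ n * s := by
    intro n
    induction n with
    | zero => exact ⟨t, by simp⟩
    | succ n ih =>
      obtain ⟨s, hs⟩ := ih
      obtain ⟨s', hs'⟩ := hcon n s hs
      exact ⟨s', by rw [hs, hs']; ring⟩
  apply Subtype.ext
  apply Prod.ext
  · apply xP_pow_dvd
    intro n
    obtain ⟨s, hs⟩ := h1 n
    exact ⟨(s : BB k).1, by rw [hs]; rfl⟩
  · apply xP_pow_dvd
    intro n
    obtain ⟨s, hs⟩ := h1 n
    exact ⟨(s : BB k).2, by rw [hs]; rfl⟩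

theorem x_mem_radical (hσt : Transcendental (Polynomial k) σ)
    {p g : E0 k} (hp : Irreducible p) (hg : ¬ p ∣ g) (u : PP k) (hu : u ^ 2 - u = - ZP k)
    {L : Type} [CommRing L] [IsDomain L] (φ : PP k →+* L) (h1 : φ (evP σ u p) = 0)
    (h2 : φ (evP σ u g) = 0) : φ (xP k) = 0 := by
  by_contra hx
  let ψ : PowerSeries k →+* L := φ.comp C
  have hψX : ψ X ≠ 0 := hx
  have hψ : Function.Injective ψ := by
    rw [injective_iff_map_eq_zero]
    intro s hs
    by_contra hs0
    obtain ⟨n, v, hv⟩ := IsDiscreteValuationRing.associated_pow_irreducible hs0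
      (X_prime (R := k)).irreducible
    have : ψ (s * v) = ψ (X ^ n) := by rw [hv]
    rw [map_mul, hs, zero_mul, map_pow] at this
    exact pow_ne_zero n hψX this.symm
  letI : Algebra (Polynomial k) L := (ψ.comp (Polynomial.coeToPowerSeries.ringHom)).toAlgebra
  have halg : ∀ a : Polynomial k, algebraMap (Polynomial k) L a = φ (C (a : PowerSeries k)) :=
    fun a => rfl
  have hev : ∀ A : Polynomial (Polynomial k), Polynomial.aeval (φ (ZP k)) A = φ (evA k A) := by
    intro A
    have : (Polynomial.aeval (φ (ZP k)) : Polynomial (Polynomial k) →ₐ[Polynomial k] L).toRingHom =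
        φ.comp (evA k) := by
      apply Polynomial.ringHom_ext
      · intro a
        simp [halg, evA]
      · simp [evA]
    exact RingHom.congr_fun this A
  have hey : ∀ A : Polynomial (Polynomial k), Polynomial.aeval (φ (C σ + u * ZP k)) A =
      φ (evP σ u (A.map Polynomial.C)) := by
    intro A
    have : (Polynomial.aeval (φ (C σ + u * ZP k)) :
        Polynomial (Polynomial k) →ₐ[Polynomial k] L).toRingHom =
        (φ.comp (evP σ u)).comp (Polynomial.mapRingHom Polynomial.C) := by
      apply Polynomial.ringHom_ext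
      · intro a
        simp [halg, evA, evP]
      · simp [evP]
    exact RingHom.congr_fun this A
  -- first elimination
  obtain ⟨c, hc0, a1, a2, hc⟩ := elim hp hg
  have hcZ : φ (evA k c) = 0 := by
    have : φ (evP σ u (Polynomial.C c)) = 0 := by
      rw [hc, map_add, map_mul, map_mul, map_add, map_mul, map_mul, h1, h2]; ring
    simpa [evP] using this
  -- second elimination
  have hp' : Irreducible (Polynomial.Bivariate.swap p) :=
    (MulEquiv.irreducible_iff (Polynomial.Bivariate.swap (R := Polynomial k))).2 hp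
  have hg' : ¬ (Polynomial.Bivariate.swap p) ∣ (Polynomial.Bivariate.swap g) := by
    rintro ⟨r, hr⟩
    apply hg
    refine ⟨Polynomial.Bivariate.swap r, ?_⟩
    have := congrArg (Polynomial.Bivariate.swap (R := Polynomial k)) hr
    rw [map_mul, Polynomial.Bivariate.swap_swap_apply, Polynomial.Bivariate.swap_swap_apply] at this
    exact this
  obtain ⟨d, hd0, b1, b2, hd⟩ := elim hp' hg'
  have hdy : φ (evP σ u (d.map Polynomial.C)) = 0 := by
    have h3 := congrArg (Polynomial.Bivariate.swap (R := Polynomial k)) hd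
    rw [map_add, map_mul, map_mul, Polynomial.Bivariate.swap_swap_apply,
      Polynomial.Bivariate.swap_swap_apply, Polynomial.Bivariate.swap_C] at h3
    rw [h3, map_add, map_mul, map_mul, map_add, map_mul, map_mul, h1, h2]; ring
  have hZalg : Polynomial.aeval (φ (ZP k)) c = 0 := by rw [hev, hcZ]
  have hyalg : IsAlgebraic (Polynomial k) (φ (C σ + u * ZP k)) :=
    ⟨d, hd0, by rw [hey, hdy]⟩
  have hualg : IsAlgebraic (Polynomial k) (φ u) := by
    refine ⟨c.comp (Polynomial.X - Polynomial.X ^ 2), ?_, ?_⟩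
    · intro h0
      rw [Polynomial.comp_eq_zero_iff] at h0
      rcases h0 with h0 | ⟨-, h0⟩
      · exact hc0 h0
      · have h4 := congrArg (fun q : Polynomial (Polynomial k) => q.coeff 1) h0
        simp [Polynomial.coeff_X, Polynomial.coeff_C] at h4
    · rw [Polynomial.aeval_comp]
      have : Polynomial.aeval (φ u) (Polynomial.X - Polynomial.X ^ 2 :
          Polynomial (Polynomial k)) = φ (ZP k) := by
        rw [map_sub, map_pow, Polynomial.aeval_X, ← map_pow, ← map_sub]
        congr 1
        linear_combination (-1 : PP k) * hu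
      rw [this, hZalg]
  have hZ' : IsAlgebraic (Polynomial k) (φ (ZP k)) := ⟨c, hc0, hZalg⟩
  have hs : IsAlgebraic (Polynomial k) (ψ σ) := by
    have : ψ σ = φ (C σ + u * ZP k) - φ u * φ (ZP k) := by
      rw [map_add, map_mul]
      change φ (C σ) = _
      ring
    rw [this]
    exact hyalg.sub (hualg.mul hZ')
  apply hσt
  let Ψ : PowerSeries k →ₐ[Polynomial k] L := { ψ with commutes' := fun a => rfl }
  exact (isAlgebraic_algHom_iff Ψ hψ).1 hs

end

end Pool.Agent.H945B
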