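import Pool.Agent.H945B.A5

set_option autoImplicit false
set_option linter.style.haveILetI false

namespace Pool.Agent.H945B

open PowerSeries

section

variable {k : Type} [Field k] (σ : PowerSeries k)

/-- The diagonal embedding. -/
noncomputable def dg (k : Type) [Field k] : PP k →+* TT k :=
  ((RingHom.id (PP k)).prod (RingHom.id (PP k))).codRestrict (TT k) (fun _ => rfl)

theorem dg_x : dg k (xP k) = iRT σ (xR σ) := rfl

/-- The element `(X, 0)`. -/
noncomputable def pT (k : Type) [Field k] : TT k := ⟨(X, 0), by simp [mem_TT]⟩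

/-- The element `(0, X)`. -/
noncomputable def qT (k : Type) [Field k] : TT k := ⟨(0, X), by simp [mem_TT]⟩

theorem pT_mul_qT : pT k * qT k = 0 := by
  apply Subtype.ext
  apply Prod.ext
  · change (X : PP k) * 0 = 0
    simp
  · change (0 : PP k) * X = 0
    simp

theorem pT_add_qT : pT k + qT k = dg k X := by
  apply Subtype.ext
  apply Prod.ext
  · change (X : PP k) + 0 = X
    simp
  · change (0 : PP k) + X = X
    simp

theorem sub_fst (t : TT k) : ∃ g : PP k, t - dg k (t : BB k).1 = qT k * dg k g := by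
  have h := mem_TT.1 t.2
  obtain ⟨g, hg⟩ : (X : PP k) ∣ (t : BB k).2 - (t : BB k).1 := by
    rw [X_dvd_iff, map_sub, h, sub_self]
  refine ⟨g, ?_⟩
  apply Subtype.ext
  apply Prod.ext
  · change (t : BB k).1 - (t : BB k).1 = 0 * g
    simp
  · exact hg

theorem sub_snd (t : TT k) : ∃ g : PP k, t - dg k (t : BB k).2 = pT k * dg k g := by
  have h := mem_TT.1 t.2
  obtain ⟨g, hg⟩ : (X : PP k) ∣ (t : BB k).1 - (t : BB k).2 := by
    rw [X_dvd_iff, map_sub, h, sub_self]
  refine ⟨g, ?_⟩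
  apply Subtype.ext
  apply Prod.ext
  · exact hg
  · change (t : BB k).2 - (t : BB k).2 = 0 * g
    simp

theorem x_pow_mem (hσ : constantCoeff σ = 0) (hσt : Transcendental (Polynomial k) σ)
    {p g : E0 k} (hp : Irreducible p) (hg : ¬ p ∣ g) :
    ∃ n, xR σ ^ n ∈ (Ideal.span {evR σ p, evR σ g} : Ideal (RR σ)) := by
  have h1 : iRT σ (xR σ) ∈ (Ideal.span {iRT σ (evR σ p), iRT σ (evR σ g)} :
      Ideal (TT k)).radical := by
    rw [Ideal.radical_eq_sInf, Ideal.mem_sInf]
    rintro Q ⟨hQ, hQp⟩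
    have hpQ : iRT σ (evR σ p) ∈ Q := hQ (Ideal.subset_span (by simp))
    have hgQ : iRT σ (evR σ g) ∈ Q := hQ (Ideal.subset_span (by simp))
    have h2 : pT k * qT k ∈ Q := by rw [pT_mul_qT]; exact Q.zero_mem
    have hdom : IsDomain (TT k ⧸ Q) := Ideal.Quotient.isDomain Q
    rcases hQp.mem_or_mem h2 with h2 | h2
    · have h3 : ∀ t : TT k, Ideal.Quotient.mk Q t = Ideal.Quotient.mk Q (dg k (t : BB k).2) := by
        intro t
        obtain ⟨g', hg'⟩ := sub_snd t
        rw [Ideal.Quotient.mk_eq_mk_iff_sub_mem, hg']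
        exact Q.mul_mem_right _ h2
      have h4 := x_mem_radical σ hσt hp hg (1 - X) hu1X ((Ideal.Quotient.mk Q).comp (dg k))
        ((h3 (iRT σ (evR σ p))).symm.trans (Ideal.Quotient.eq_zero_iff_mem.2 hpQ))
        ((h3 (iRT σ (evR σ g))).symm.trans (Ideal.Quotient.eq_zero_iff_mem.2 hgQ))
      rw [RingHom.comp_apply, dg_x σ] at h4
      exact Ideal.Quotient.eq_zero_iff_mem.1 h4
    · have h3 : ∀ t : TT k, Ideal.Quotient.mk Q t = Ideal.Quotient.mk Q (dg k (t : BB k).1) := by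
        intro t
        obtain ⟨g', hg'⟩ := sub_fst t
        rw [Ideal.Quotient.mk_eq_mk_iff_sub_mem, hg']
        exact Q.mul_mem_right _ h2
      have h4 := x_mem_radical σ hσt hp hg X huX ((Ideal.Quotient.mk Q).comp (dg k))
        ((h3 (iRT σ (evR σ p))).symm.trans (Ideal.Quotient.eq_zero_iff_mem.2 hpQ))
        ((h3 (iRT σ (evR σ g))).symm.trans (Ideal.Quotient.eq_zero_iff_mem.2 hgQ))
      rw [RingHom.comp_apply, dg_x σ] at h4
      exact Ideal.Quotient.eq_zero_iff_mem.1 h4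
  obtain ⟨n, hn⟩ := Ideal.mem_radical_iff.1 h1
  have h2 : xR σ ^ n ∈ (Ideal.span {evR σ p, evR σ g} ⊔ Ideal.span {xR σ ^ (n + 1)} :
      Ideal (RR σ)) := by
    apply closed σ hσ (n := n + 1)
    · exact Ideal.mem_sup_right (Ideal.mem_span_singleton_self _)
    · rw [map_pow, Ideal.map_sup]
      apply Ideal.mem_sup_left
      rw [Ideal.map_span, Set.image_pair]
      exact hn
  obtain ⟨a, ha, b, hb, hab⟩ := Submodule.mem_sup.1 h2
  obtain ⟨c, rfl⟩ := Ideal.mem_span_singleton.1 hb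
  refine ⟨n, ?_⟩
  have hu : IsUnit (1 - xR σ * c) := by
    rw [← isUnit_map_iff (dR σ), isUnit_iff_ne_zero, map_sub, map_mul, map_one]
    have : dR σ (xR σ) = 0 := by
      change dn k (xB k) = 0
      simp [dn_apply, xB, xP]
    rw [this]
    simp
  rw [← Ideal.unit_mul_mem_iff_mem _ hu]
  have : (1 - xR σ * c) * xR σ ^ n = a := by
    linear_combination -hab
  rw [this]
  exact ha

theorem dvd_of_dvd_x_pow (hσ : constantCoeff σ = 0) {p a : RR σ} (hp : ¬ xR σ ∣ p) {n : ℕ}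
    (h : p ∣ xR σ ^ n * a) : p ∣ a := by
  have := noZeroDiv σ hσ
  obtain ⟨c, hc⟩ := h
  have h1 : xR σ ^ n ∣ c := by
    apply (xR_prime σ hσ).pow_dvd_of_dvd_mul_left n hp
    rw [← hc]
    exact dvd_mul_right _ _
  obtain ⟨d, rfl⟩ := h1
  refine ⟨d, ?_⟩
  apply mul_left_cancel₀ (pow_ne_zero n (xR_ne_zero σ))
  rw [hc]; ring

theorem exists_prime_mem {A B : Type} [CommRing A] [IsDomain A] [UniqueFactorizationMonoid A]
    [CommRing B] (f : A →+* B) {P : Ideal B} (hP : P.IsPrime) (e : A) (he : f e ∈ P)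
    (h : e ≠ 0) : ∃ p, f p ∈ P ∧ Prime p := by
  have h1 : (P.comap f).IsPrime := Ideal.comap_isPrime f P
  have h2 : P.comap f ≠ ⊥ := by
    intro h0
    have : e ∈ P.comap f := he
    rw [h0] at this
    exact h this
  obtain ⟨p, hp, hp'⟩ := h1.exists_mem_prime_of_ne_bot h2
  exact ⟨p, hp, hp'⟩

/-- Elements of `R` as fractions. -/
theorem exists_frac (t : RR σ) : ∃ (w e : E0 k) (n : ℕ) (s : RR σ), IsUnit s ∧
    evR σ w = xR σ ^ n * s ∧ evR σ w * t = evR σ e := by
  obtain ⟨h1, w, e, n, s, h2, h3, h4, h5⟩ := t.2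
  have hs : s ∈ RR σ := by
    apply RR_div h2 (n := n)
    rw [← h4]
    exact ev_mem_RR w
  refine ⟨w, e, n, ⟨s, hs⟩, ?_, Subtype.ext h4, Subtype.ext h5⟩
  rw [← isUnit_map_iff (dR σ), isUnit_iff_ne_zero]
  exact h3

theorem prime_principal (hσ : constantCoeff σ = 0) (hσt : Transcendental (Polynomial k) σ)
    {P : Ideal (RR σ)} (hP : P.IsPrime) (hx : xR σ ∉ P) : ∃ p, P = Ideal.span {p} := by
  have := noZeroDiv σ hσ
  -- if all polynomials in `P` vanish then `P = 0`
  have hbot : (∀ e : E0 k, evR σ e ∈ P → evR σ e = 0) → P = Ideal.span {0} := by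
    intro h
    rw [Ideal.span_singleton_eq_bot.2 rfl, eq_bot_iff]
    intro t ht
    obtain ⟨w, e, n, s, hs, h4, h5⟩ := exists_frac σ t
    have h6 : evR σ e = 0 := h e (by rw [← h5]; exact P.mul_mem_left _ ht)
    rw [h6, h4] at h5
    rcases mul_eq_zero.1 h5 with h7 | h7
    · rcases mul_eq_zero.1 h7 with h8 | h8
      · exact absurd h8 (pow_ne_zero n (xR_ne_zero σ))
      · exact absurd h8 hs.ne_zero
    · exact h7
  by_cases hq : ∀ e : E0 k, evR σ e ∈ P → e = 0
  · refine ⟨0, hbot ?_⟩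
    intro e he
    rw [hq e he, map_zero]
  push Not at hq
  obtain ⟨e0, he0, he00⟩ := hq
  obtain ⟨p, hpP, hp⟩ := exists_prime_mem (evR σ) hP e0 he0 he00
  have hdiv : ∀ g : E0 k, evR σ g ∈ P → p ∣ g := by
    intro g hg
    by_contra hcon
    obtain ⟨n, hn⟩ := x_pow_mem σ hσ hσt hp.irreducible hcon
    apply hx
    apply hP.mem_of_pow_mem n
    refine (Ideal.span_le.2 ?_) hn
    rintro _ h
    simp only [Set.mem_insert_iff, Set.mem_singleton_iff] at h
    rcases h with rfl | rfl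
    · exact hpP
    · exact hg
  by_cases hp0 : evR σ p = 0
  · refine ⟨0, hbot ?_⟩
    intro e he
    obtain ⟨r, rfl⟩ := hdiv e he
    rw [map_mul, hp0, zero_mul]
  obtain ⟨j, p', h1, h2⟩ := exists_pow_mul σ hp0
  have hp'P : p' ∈ P := by
    have h3 : xR σ ^ j * p' ∈ P := by rw [← h1]; exact hpP
    rcases hP.mem_or_mem h3 with h4 | h4
    · exact absurd (hP.mem_of_pow_mem j h4) hx
    · exact h4
  refine ⟨p', le_antisymm ?_ ((Ideal.span_singleton_le_iff_mem P).2 hp'P)⟩
  intro t ht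
  obtain ⟨w, e, n, s, hs, h4, h5⟩ := exists_frac σ t
  obtain ⟨r, rfl⟩ := hdiv e (by rw [← h5]; exact P.mul_mem_left _ ht)
  rw [Ideal.mem_span_singleton]
  have h6 : p' ∣ xR σ ^ n * (s * t) := by
    refine ⟨xR σ ^ j * evR σ r, ?_⟩
    calc xR σ ^ n * (s * t) = evR σ w * t := by rw [h4]; ring
      _ = evR σ p * evR σ r := by rw [h5, map_mul]
      _ = _ := by rw [h1]; ring
  exact (hs.dvd_mul_left).1 (dvd_of_dvd_x_pow σ hσ h2 h6)

theorem noeth (hσ : constantCoeff σ = 0) (hσt : Transcendental (Polynomial k) σ) :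
    IsNoetherianRing (RR σ) := by
  apply IsNoetherianRing.of_prime
  intro P hP
  by_cases hx : xR σ ∈ P
  · exact fg_of_x_pow_mem σ hσ (n := 1) (by simpa using hx)
  · obtain ⟨p, rfl⟩ := prime_principal σ hσ hσt hP hx
    exact ⟨{p}, by simp⟩

theorem pid_away (hσ : constantCoeff σ = 0) (hσt : Transcendental (Polynomial k) σ) :
    IsPrincipalIdealRing (Localization.Away (xR σ)) := by
  apply IsPrincipalIdealRing.of_prime
  intro P hP
  have h1 : (P.comap (algebraMap (RR σ) (Localization.Away (xR σ)))).IsPrime :=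
    Ideal.comap_isPrime _ P
  have hx : xR σ ∉ P.comap (algebraMap (RR σ) (Localization.Away (xR σ))) := by
    intro h
    rw [Ideal.mem_comap] at h
    exact hP.ne_top (Ideal.eq_top_of_isUnit_mem _ h
      (IsLocalization.Away.algebraMap_isUnit (xR σ)))
  obtain ⟨p, hp⟩ := prime_principal σ hσ hσt h1 hx
  refine ⟨⟨algebraMap (RR σ) (Localization.Away (xR σ)) p, ?_⟩⟩
  have h2 : Ideal.map (algebraMap (RR σ) (Localization.Away (xR σ)))
      (Ideal.comap (algebraMap (RR σ) (Localization.Away (xR σ))) P) = P :=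
    IsLocalization.map_under (Submonoid.powers (xR σ)) (Localization.Away (xR σ)) P
  rw [← h2, hp, Ideal.map_span, Set.image_singleton]

end

end Pool.Agent.H945B
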