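import Pool.Agent.H945B.A6
import Pool.Agent.H661R3.CM.IndecR

set_option autoImplicit false
set_option linter.style.haveILetI false

namespace Pool.Agent.H945B

open PowerSeries IsLocalRing

section Tside

variable {k : Type} [Field k]

theorem T_dvd_u {t : TT k} : pT k ∣ t ↔ (t : BB k).2 = 0 := by
  constructor
  · rintro ⟨s, rfl⟩
    change (0 : PP k) * _ = 0
    simp
  · intro h
    obtain ⟨g, hg⟩ := sub_snd t
    refine ⟨dg k g, ?_⟩
    rw [h, map_zero, sub_zero] at hg
    exact hg

theorem T_dvd_v {t : TT k} : qT k ∣ t ↔ (t : BB k).1 = 0 := by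
  constructor
  · rintro ⟨s, rfl⟩
    change (0 : PP k) * _ = 0
    simp
  · intro h
    obtain ⟨g, hg⟩ := sub_fst t
    refine ⟨dg k g, ?_⟩
    rw [h, map_zero, sub_zero] at hg
    exact hg

/-- The element `x` of `T`. -/
noncomputable def xT (k : Type) [Field k] : TT k := dg k (xP k)

theorem xT_fst (t : TT k) : ((xT k * t : TT k) : BB k).1 = xP k * (t : BB k).1 := rfl

theorem xT_snd (t : TT k) : ((xT k * t : TT k) : BB k).2 = xP k * (t : BB k).2 := rfl

theorem pT_fst (t : TT k) : ((pT k * t : TT k) : BB k).1 = X * (t : BB k).1 := rfl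

theorem pT_snd (t : TT k) : ((pT k * t : TT k) : BB k).2 = 0 * (t : BB k).2 := rfl

theorem qT_fst (t : TT k) : ((qT k * t : TT k) : BB k).1 = 0 * (t : BB k).1 := rfl

theorem qT_snd (t : TT k) : ((qT k * t : TT k) : BB k).2 = X * (t : BB k).2 := rfl

theorem T_ext {s t : TT k} (h1 : (s : BB k).1 = (t : BB k).1) (h2 : (s : BB k).2 = (t : BB k).2) :
    s = t := Subtype.ext (Prod.ext h1 h2)

theorem constX : constantCoeff (xP k) = (X : PowerSeries k) := by simp [xP]

theorem mem_span_uv {t : TT k} : t ∈ Ideal.span {pT k, qT k} ↔ constantCoeff (t : BB k).1 = 0 := by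
  constructor
  · intro h
    obtain ⟨a, b, rfl⟩ := Ideal.mem_span_pair.1 h
    change constantCoeff ((a : BB k).1 * X + (b : BB k).1 * 0) = 0
    simp
  · intro h
    have h' := mem_TT.1 t.2
    rw [h] at h'
    obtain ⟨f, hf⟩ := X_dvd_iff.2 h
    obtain ⟨g, hg⟩ := X_dvd_iff.2 h'.symm
    rw [Ideal.mem_span_pair]
    refine ⟨dg k f, dg k g, ?_⟩
    apply T_ext
    · change f * X + g * 0 = (t : BB k).1
      rw [hf]; ring
    · change f * 0 + g * X = (t : BB k).2
      rw [hg]; ring

theorem mem_span_ux {t : TT k} : t ∈ Ideal.span {pT k, xT k} ↔ xP k ∣ (t : BB k).2 := by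
  constructor
  · intro h
    obtain ⟨a, b, rfl⟩ := Ideal.mem_span_pair.1 h
    change xP k ∣ ((a : BB k).2 * 0 + (b : BB k).2 * xP k)
    exact ⟨(b : BB k).2, by ring⟩
  · rintro ⟨g, hg⟩
    have h1 : pT k ∣ t - xT k * dg k g := by
      rw [T_dvd_u]
      change (t : BB k).2 - xP k * g = 0
      rw [hg]; ring
    obtain ⟨s, hs⟩ := h1
    rw [Ideal.mem_span_pair]
    exact ⟨s, dg k g, by linear_combination -hs⟩

theorem mem_span_vx {t : TT k} : t ∈ Ideal.span {qT k, xT k} ↔ xP k ∣ (t : BB k).1 := by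
  constructor
  · intro h
    obtain ⟨a, b, rfl⟩ := Ideal.mem_span_pair.1 h
    change xP k ∣ ((a : BB k).1 * 0 + (b : BB k).1 * xP k)
    exact ⟨(b : BB k).1, by ring⟩
  · rintro ⟨g, hg⟩
    have h1 : qT k ∣ t - xT k * dg k g := by
      rw [T_dvd_v]
      change (t : BB k).1 - xP k * g = 0
      rw [hg]; ring
    obtain ⟨s, hs⟩ := h1
    rw [Ideal.mem_span_pair]
    exact ⟨s, dg k g, by linear_combination -hs⟩

theorem ainf2 : Pool.Agent.H661R3.CM.AInf2 (TT k) (xT k) (pT k) (qT k) where
  max := by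
    apply le_antisymm
    · intro t ht
      rw [mem_maxT] at ht
      have ht' : constantCoeff (constantCoeff (t : BB k).1) = 0 := ht
      obtain ⟨c, hc⟩ := X_dvd_iff.2 ht'
      have h1 : t - xT k * dg k (C c) ∈ Ideal.span {pT k, qT k} := by
        rw [mem_span_uv]
        change constantCoeff ((t : BB k).1 - xP k * C c) = 0
        rw [map_sub, map_mul, constX, constantCoeff_C, hc, sub_self]
      have h2 : t = xT k * dg k (C c) + (t - xT k * dg k (C c)) := by ring
      rw [h2]
      apply Ideal.add_mem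
      · exact Ideal.mul_mem_right _ _ (Ideal.subset_span (by simp))
      · refine Ideal.span_mono ?_ h1
        intro a ha
        simp only [Set.mem_insert_iff, Set.mem_singleton_iff] at ha ⊢
        tauto
    · rw [Ideal.span_le]
      rintro t ht
      simp only [Set.mem_insert_iff, Set.mem_singleton_iff] at ht
      rw [SetLike.mem_coe, mem_maxT]
      rcases ht with rfl | rfl | rfl
      · change constantCoeff (constantCoeff (xP k)) = 0
        simp [xP]
      · change constantCoeff (constantCoeff (X : PP k)) = 0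
        simp
      · change constantCoeff (constantCoeff (0 : PP k)) = 0
        simp
  uv := pT_mul_qT
  annu := by
    intro t ht
    rw [T_dvd_v]
    have h1 := congrArg (fun s : TT k => (s : BB k).1) ht
    simp only [pT_fst] at h1
    exact (mul_eq_zero.1 h1).resolve_left X_ne_zero
  annv := by
    intro t ht
    rw [T_dvd_u]
    have h1 := congrArg (fun s : TT k => (s : BB k).2) ht
    simp only [qT_snd] at h1
    exact (mul_eq_zero.1 h1).resolve_left X_ne_zero
  xreg := by
    intro t ht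
    have h1 := congrArg (fun s : TT k => (s : BB k).1) ht
    have h2 := congrArg (fun s : TT k => (s : BB k).2) ht
    simp only [xT_fst] at h1
    simp only [xT_snd] at h2
    exact T_ext ((mul_eq_zero.1 h1).resolve_left xP_ne_zero)
      ((mul_eq_zero.1 h2).resolve_left xP_ne_zero)
  xu := by
    intro t ht
    rw [T_dvd_u] at ht ⊢
    rw [xT_snd] at ht
    exact (mul_eq_zero.1 ht).resolve_left xP_ne_zero
  xv := by
    intro t ht
    rw [T_dvd_v] at ht ⊢
    rw [xT_fst] at ht
    exact (mul_eq_zero.1 ht).resolve_left xP_ne_zero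
  puv := by
    have : Ideal.span {pT k, qT k} = RingHom.ker
        ((constantCoeff).comp ((RingHom.fst (PP k) (PP k)).comp (TT k).subtype)) := by
      ext t
      rw [mem_span_uv]
      rfl
    rw [this]
    exact RingHom.ker_isPrime _
  pux := by
    have : Ideal.span {pT k, xT k} = RingHom.ker
        ((redP k).comp ((RingHom.snd (PP k) (PP k)).comp (TT k).subtype)) := by
      ext t
      rw [mem_span_ux, xP_dvd_iff]
      rfl
    rw [this]
    exact RingHom.ker_isPrime _
  pvx := by
    have : Ideal.span {qT k, xT k} = RingHom.ker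
        ((redP k).comp ((RingHom.fst (PP k) (PP k)).comp (TT k).subtype)) := by
      ext t
      rw [mem_span_vx, xP_dvd_iff]
      rfl
    rw [this]
    exact RingHom.ker_isPrime _
  cap := by
    intro s t hst
    have h1 := congrArg (fun s : TT k => (s : BB k).1) hst
    simp only [qT_fst, zero_mul] at h1
    apply T_ext
    · exact h1
    · change (0 : PP k) * _ = 0
      simp
  xuv := by
    rw [mem_span_uv]
    change ¬ constantCoeff (xP k) = 0
    rw [constX]
    exact X_ne_zero
  wreg := by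
    intro t s hts
    have h1 := congrArg (fun s : TT k => (s : BB k).1) hts
    have h2 := congrArg (fun s : TT k => (s : BB k).2) hts
    rw [pT_add_qT] at h1 h2
    have h1' : X * (t : BB k).1 = xP k * (s : BB k).1 := h1
    have h2' : X * (t : BB k).2 = xP k * (s : BB k).2 := h2
    have hX : ¬ xP k ∣ (X : PP k) := by
      rw [xP_dvd_iff]
      simp only [redP, map_X]
      exact X_ne_zero
    obtain ⟨a, ha⟩ := (xP_prime.dvd_or_dvd (Dvd.intro _ h1'.symm)).resolve_left hX
    obtain ⟨b, hb⟩ := (xP_prime.dvd_or_dvd (Dvd.intro _ h2'.symm)).resolve_left hX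
    have hab : ((a, b) : BB k) ∈ TT k := by
      rw [mem_TT]
      have h3 := mem_TT.1 t.2
      rw [ha, hb, map_mul, map_mul, constX] at h3
      exact mul_left_cancel₀ X_ne_zero h3
    exact ⟨⟨(a, b), hab⟩, T_ext ha hb⟩

noncomputable instance algPT : Algebra (PP k) (TT k) := (dg k).toAlgebra

instance finitePT : Module.Finite (PP k) (TT k) := by
  classical
  refine ⟨⟨{1, pT k}, ?_⟩⟩
  rw [eq_top_iff]
  intro t _
  rw [Finset.coe_insert, Finset.coe_singleton, Submodule.mem_span_pair]
  obtain ⟨g, hg⟩ := sub_snd t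
  refine ⟨(t : BB k).2, g, ?_⟩
  rw [Algebra.smul_def, Algebra.smul_def]
  change dg k _ * 1 + dg k _ * pT k = t
  linear_combination -hg

instance noethT : IsNoetherianRing (TT k) := IsNoetherianRing.of_finite (PP k) (TT k)

end Tside

section comp

variable {k : Type} [Field k] (σ : PowerSeries k)

theorem mem_maxT_pow (hσ : constantCoeff σ = 0) (j : ℕ) {t : TT k}
    (h1 : (t : BB k).1 ∈ FF k j) (h2 : (t : BB k).2 ∈ FF k j) :
    t ∈ (maximalIdeal (TT k)) ^ j := by
  obtain ⟨r, hr⟩ := dense_T σ hσ j t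
  have h3 := maxT_pow_le j hr
  have h4 : (r : BB k).1 ∈ FF k j := by
    have : (r : BB k).1 = (t : BB k).1 - ((t - iRT σ r : TT k) : BB k).1 := by
      change (r : BB k).1 = (t : BB k).1 - ((t : BB k).1 - (r : BB k).1)
      ring
    rw [this]
    exact Ideal.sub_mem _ h1 h3.1
  have h5 : (r : BB k).2 ∈ FF k j := by
    have : (r : BB k).2 = (t : BB k).2 - ((t - iRT σ r : TT k) : BB k).2 := by
      change (r : BB k).2 = (t : BB k).2 - ((t : BB k).2 - (r : BB k).2)
      ring
    rw [this]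
    exact Ideal.sub_mem _ h2 h3.2
  have h6 := Ideal.mem_map_of_mem (iRT σ) (mem_maxR_pow σ hσ j h4 h5)
  rw [Ideal.map_pow] at h6
  have h7 := Ideal.pow_right_mono (map_maxR_le σ) j h6
  have : t = (t - iRT σ r) + iRT σ r := by ring
  rw [this]
  exact Ideal.add_mem _ hr h7

theorem mem_FF_lim {j : ℕ} {s : ℕ → PP k} (hs : ∀ n, s (n + 1) - s n ∈ FF k n) :
    (PowerSeries.mk fun i => PowerSeries.mk fun l => coeff l (coeff i (s (i + l + 1)))) - s j ∈
      FF k j := by
  have hcoeff : ∀ i l n, i + l < n → coeff l (coeff i (s n)) =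
      coeff l (coeff i (s (i + l + 1))) := by
    intro i l n hn
    induction n with
    | zero => omega
    | succ n ih =>
      by_cases h : i + l < n
      · rw [← ih h, ← sub_eq_zero, ← map_sub, ← map_sub]
        have h1 := hs n i
        rw [X_pow_dvd_iff] at h1
        exact h1 l (by omega)
      · have : n = i + l := by omega
        rw [this]
  intro i
  rw [X_pow_dvd_iff]
  intro l hl
  rw [map_sub, map_sub, coeff_mk, coeff_mk, hcoeff i l j (by omega), sub_self]

theorem T_complete (hσ : constantCoeff σ = 0) {s : ℕ → TT k}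
    (hs : ∀ n, s (n + 1) - s n ∈ (maximalIdeal (TT k)) ^ n) :
    ∃ t : TT k, ∀ n, t - s n ∈ (maximalIdeal (TT k)) ^ n := by
  have h1 : ∀ n, (s (n + 1) : BB k).1 - (s n : BB k).1 ∈ FF k n := fun n =>
    (maxT_pow_le n (hs n)).1
  have h2 : ∀ n, (s (n + 1) : BB k).2 - (s n : BB k).2 ∈ FF k n := fun n =>
    (maxT_pow_le n (hs n)).2
  set f : PP k := PowerSeries.mk fun i => PowerSeries.mk fun l =>
    coeff l (coeff i ((s (i + l + 1) : BB k).1)) with hf
  set g : PP k := PowerSeries.mk fun i => PowerSeries.mk fun l =>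
    coeff l (coeff i ((s (i + l + 1) : BB k).2)) with hg
  have hfg : ((f, g) : BB k) ∈ TT k := by
    rw [mem_TT]
    rw [← coeff_zero_eq_constantCoeff_apply, ← coeff_zero_eq_constantCoeff_apply, hf, hg,
      coeff_mk, coeff_mk]
    ext l
    rw [coeff_mk, coeff_mk, coeff_zero_eq_constantCoeff_apply, coeff_zero_eq_constantCoeff_apply,
      mem_TT.1 (s (0 + l + 1)).2]
  refine ⟨⟨(f, g), hfg⟩, fun n => ?_⟩
  apply mem_maxT_pow σ hσ
  · exact mem_FF_lim (s := fun n => (s n : BB k).1) h1
  · exact mem_FF_lim (s := fun n => (s n : BB k).2) h2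

/-- `R / 𝔪^n ≃ T / 𝔪_T^n`. -/
noncomputable def qEquiv (hσ : constantCoeff σ = 0) (n : ℕ) :
    (RR σ ⧸ (maximalIdeal (RR σ)) ^ n) ≃+* (TT k ⧸ (maximalIdeal (TT k)) ^ n) :=
  (Ideal.quotEquivOfEq (show (maximalIdeal (RR σ)) ^ n =
      RingHom.ker ((Ideal.Quotient.mk ((maximalIdeal (TT k)) ^ n)).comp (iRT σ)) by
    ext r
    rw [RingHom.mem_ker, RingHom.comp_apply, Ideal.Quotient.eq_zero_iff_mem]
    constructor
    · intro h
      have h6 := Ideal.mem_map_of_mem (iRT σ) h
      rw [Ideal.map_pow] at h6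
      exact Ideal.pow_right_mono (map_maxR_le σ) n h6
    · intro h
      have h3 := maxT_pow_le n h
      exact mem_maxR_pow σ hσ n h3.1 h3.2)).trans
    (RingHom.quotientKerEquivOfSurjective (f := (Ideal.Quotient.mk
      ((maximalIdeal (TT k)) ^ n)).comp (iRT σ)) (by
    intro q
    obtain ⟨t, rfl⟩ := Ideal.Quotient.mk_surjective q
    obtain ⟨r, hr⟩ := dense_T σ hσ n t
    refine ⟨r, ?_⟩
    rw [RingHom.comp_apply, eq_comm, Ideal.Quotient.mk_eq_mk_iff_sub_mem]
    exact hr))

theorem qEquiv_mk (hσ : constantCoeff σ = 0) (n : ℕ) (r : RR σ) :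
    qEquiv σ hσ n (Ideal.Quotient.mk _ r) = Ideal.Quotient.mk _ (iRT σ r) := rfl

/-- The maps `T → R / 𝔪^n`. -/
noncomputable def fT (hσ : constantCoeff σ = 0) (n : ℕ) :
    TT k →+* RR σ ⧸ (maximalIdeal (RR σ)) ^ n :=
  ((qEquiv σ hσ n).symm.toRingHom).comp (Ideal.Quotient.mk _)

theorem fT_of (hσ : constantCoeff σ = 0) (n : ℕ) {t : TT k} {r : RR σ}
    (h : t - iRT σ r ∈ (maximalIdeal (TT k)) ^ n) : fT σ hσ n t = Ideal.Quotient.mk _ r := by
  have h1 : Ideal.Quotient.mk ((maximalIdeal (TT k)) ^ n) t =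
      Ideal.Quotient.mk _ (iRT σ r) := by
    rw [Ideal.Quotient.mk_eq_mk_iff_sub_mem]; exact h
  change (qEquiv σ hσ n).symm (Ideal.Quotient.mk _ t) = _
  rw [h1, RingEquiv.symm_apply_eq, qEquiv_mk]

theorem fT_compat (hσ : constantCoeff σ = 0) {m n : ℕ} (hle : m ≤ n) :
    (Ideal.Quotient.factorPow (maximalIdeal (RR σ)) hle).comp (fT σ hσ n) = fT σ hσ m := by
  ext t
  obtain ⟨r, hr⟩ := dense_T σ hσ n t
  rw [RingHom.comp_apply, fT_of σ hσ n hr, fT_of σ hσ m (Ideal.pow_le_pow_right hle hr)]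
  rfl

/-- The map from `T` to the completion of `R`. -/
noncomputable def toComp (hσ : constantCoeff σ = 0) :
    TT k →+* AdicCompletion (maximalIdeal (RR σ)) (RR σ) :=
  AdicCompletion.liftRingHom (maximalIdeal (RR σ)) (fT σ hσ) (fT_compat σ hσ)

theorem evalₐ_toComp (hσ : constantCoeff σ = 0) (n : ℕ) (t : TT k) :
    AdicCompletion.evalₐ (maximalIdeal (RR σ)) n (toComp σ hσ t) = fT σ hσ n t := by
  simp [toComp]

theorem FF_iInf {f : PP k} (h : ∀ n, f ∈ FF k n) : f = 0 := by
  ext i j
  have h1 := h (i + j + 1) i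
  rw [X_pow_dvd_iff] at h1
  rw [h1 j (by omega)]
  simp

theorem toComp_bijective (hσ : constantCoeff σ = 0) : Function.Bijective (toComp σ hσ) := by
  constructor
  · rw [injective_iff_map_eq_zero]
    intro t ht
    have h1 : ∀ n, t ∈ (maximalIdeal (TT k)) ^ n := by
      intro n
      have h2 := evalₐ_toComp σ hσ n t
      rw [ht, map_zero] at h2
      have h3 : (qEquiv σ hσ n).symm (Ideal.Quotient.mk _ t) = 0 := h2.symm
      rw [RingEquiv.symm_apply_eq, map_zero] at h3
      exact Ideal.Quotient.eq_zero_iff_mem.1 h3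
    apply T_ext
    · exact FF_iInf (fun n => (maxT_pow_le n (h1 n)).1)
    · exact FF_iInf (fun n => (maxT_pow_le n (h1 n)).2)
  · intro ξ
    obtain ⟨x, rfl⟩ := AdicCompletion.mk_surjective (maximalIdeal (RR σ)) (RR σ) ξ
    have h2 : ∀ n, iRT σ (x.val (n + 1)) - iRT σ (x.val n) ∈ (maximalIdeal (TT k)) ^ n := by
      intro n
      have h3 : x.val (n + 1) - x.val n ∈ (maximalIdeal (RR σ)) ^ n := by
        have h4 := (AdicCompletion.AdicCauchySequence.mk_eq_mk (I := maximalIdeal (RR σ))
          (M := RR σ) (Nat.le_succ n) x)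
        have h5 := (Submodule.Quotient.eq _).1 h4
        have h6 : ((maximalIdeal (RR σ)) ^ n • (⊤ : Ideal (RR σ))) = (maximalIdeal (RR σ)) ^ n :=
          Ideal.mul_top _
        exact (congrArg (fun I : Ideal (RR σ) => x.val (n + 1) - x.val n ∈ I) h6).mp h5
      have h6 := Ideal.mem_map_of_mem (iRT σ) h3
      rw [Ideal.map_pow, map_sub] at h6
      exact Ideal.pow_right_mono (map_maxR_le σ) n h6
    obtain ⟨t, ht⟩ := T_complete σ hσ (s := fun n => iRT σ (x.val n)) h2
    refine ⟨t, ?_⟩
    apply AdicCompletion.ext_evalₐ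
    intro n
    rw [evalₐ_toComp, fT_of σ hσ n (ht n), AdicCompletion.evalₐ_mk]

/-- `T` is the completion of `R`. -/
noncomputable def compEquiv (hσ : constantCoeff σ = 0) :
    TT k ≃+* AdicCompletion (maximalIdeal (RR σ)) (RR σ) :=
  RingEquiv.ofBijective (toComp σ hσ) (toComp_bijective σ hσ)

theorem toComp_iRT (hσ : constantCoeff σ = 0) (r : RR σ) :
    toComp σ hσ (iRT σ r) = algebraMap (RR σ) (AdicCompletion (maximalIdeal (RR σ)) (RR σ)) r := by
  apply AdicCompletion.ext_evalₐ
  intro n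
  rw [evalₐ_toComp, fT_of σ hσ n (r := r) (by rw [sub_self]; exact Ideal.zero_mem _),
    AlgHom.commutes]
  rfl

noncomputable instance algRT : Algebra (RR σ) (TT k) := (iRT σ).toAlgebra

theorem flatRT (hσ : constantCoeff σ = 0) (hσt : Transcendental (Polynomial k) σ) :
    Module.Flat (RR σ) (TT k) := by
  have := noeth σ hσ hσt
  have : Module.Flat (RR σ) (AdicCompletion (maximalIdeal (RR σ)) (RR σ)) :=
    AdicCompletion.flat_of_isNoetherian _
  let e : TT k ≃ₗ[RR σ] AdicCompletion (maximalIdeal (RR σ)) (RR σ) :=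
    { compEquiv σ hσ with
      map_smul' := by
        intro r t
        change toComp σ hσ (iRT σ r * t) = r • toComp σ hσ t
        rw [map_mul, toComp_iRT, Algebra.smul_def] }
  exact Module.Flat.of_linearEquiv e

end comp

end Pool.Agent.H945B
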