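import Pool.Agent.H945B.A7

set_option autoImplicit false
set_option linter.style.haveILetI false

namespace Pool.Agent.H945B

open PowerSeries IsLocalRing

/-- Dimension two. -/
theorem dim2 {S : Type} [CommRing S] [IsLocalRing S] [IsNoetherianRing S] {x w : S}
    (hx : x ∈ maximalIdeal S) (hw : w ∈ maximalIdeal S) (h1 : ∀ t, x * t = 0 → t = 0)
    (h2 : ∀ t s, w * t = x * s → x ∣ t)
    (h3 : ∀ P : Ideal S, P.IsPrime → x ∈ P → w ∈ P → P = maximalIdeal S) :
    ringKrullDim S = 2 := by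
  apply le_antisymm
  · classical
    have hs : ((({x, w} : Finset S) : Set S)) ⊆ Ring.jacobson S := by
      rw [IsLocalRing.ringJacobson_eq_maximalIdeal]
      intro t ht
      simp only [Finset.coe_insert, Finset.coe_singleton, Set.mem_insert_iff,
        Set.mem_singleton_iff] at ht
      rcases ht with rfl | rfl
      · exact hx
      · exact hw
    have h4 := ringKrullDim_le_ringKrullDim_quotient_add_card ({x, w} : Finset S) hs
    have h5 : Ring.KrullDimLE 0 (S ⧸ Ideal.span ((({x, w} : Finset S) : Set S))) := by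
      apply Ring.KrullDimLE.mk₀
      intro P hP
      have h6 : (P.comap (Ideal.Quotient.mk (Ideal.span ((({x, w} : Finset S) : Set S))))).IsPrime :=
        Ideal.comap_isPrime _ P
      have hx' : x ∈ P.comap (Ideal.Quotient.mk (Ideal.span ((({x, w} : Finset S) : Set S)))) := by
        rw [Ideal.mem_comap, Ideal.Quotient.eq_zero_iff_mem.2 (Ideal.subset_span (by simp))]
        exact P.zero_mem
      have hw' : w ∈ P.comap (Ideal.Quotient.mk (Ideal.span ((({x, w} : Finset S) : Set S)))) := by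
        rw [Ideal.mem_comap, Ideal.Quotient.eq_zero_iff_mem.2 (Ideal.subset_span (by simp))]
        exact P.zero_mem
      have h7 := h3 _ h6 hx' hw'
      have h9 := Ideal.map_comap_of_surjective (Ideal.Quotient.mk
        (Ideal.span ((({x, w} : Finset S) : Set S)))) Ideal.Quotient.mk_surjective P
      rw [h7] at h9
      rcases Ideal.map_eq_top_or_isMaximal_of_surjective (Ideal.Quotient.mk
        (Ideal.span ((({x, w} : Finset S) : Set S)))) Ideal.Quotient.mk_surjective
        (maximalIdeal.isMaximal S) with h10 | h10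
      · rw [h9] at h10
        exact absurd h10 hP.ne_top
      · rwa [h9] at h10
    have h8 : ringKrullDim (S ⧸ Ideal.span ((({x, w} : Finset S) : Set S))) ≤ 0 := by
      exact (Ring.krullDimLE_iff).1 h5
    refine h4.trans ?_
    calc _ ≤ (0 : WithBot ℕ∞) + ((({x, w} : Finset S)).card : ℕ) := by gcongr
      _ ≤ 2 := by
        rw [zero_add]
        exact_mod_cast Finset.card_le_two
  · have hxnz : x ∈ nonZeroDivisors S := by
      rw [mem_nonZeroDivisors_iff_right]
      intro t ht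
      exact h1 t (by rw [mul_comm]; exact ht)
    have h4 := ringKrullDim_quotient_succ_le_of_nonZeroDivisor hxnz
    have hnt : Ideal.span {x} ≠ ⊤ := by
      intro h
      rw [Ideal.eq_top_iff_one, Ideal.mem_span_singleton] at h
      exact (mem_maximalIdeal x).1 hx (isUnit_of_dvd_one h)
    have : Nontrivial (S ⧸ Ideal.span {x}) := Ideal.Quotient.nontrivial_iff.2 hnt
    have : IsLocalRing (S ⧸ Ideal.span {x}) :=
      IsLocalRing.of_surjective' (Ideal.Quotient.mk _) Ideal.Quotient.mk_surjective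
    have hwnz : Ideal.Quotient.mk (Ideal.span {x}) w ∈ nonZeroDivisors (S ⧸ Ideal.span {x}) := by
      rw [mem_nonZeroDivisors_iff_right]
      intro t ht
      obtain ⟨t, rfl⟩ := Ideal.Quotient.mk_surjective t
      rw [← map_mul, Ideal.Quotient.eq_zero_iff_mem, Ideal.mem_span_singleton] at ht
      obtain ⟨s, hs⟩ := ht
      rw [Ideal.Quotient.eq_zero_iff_mem, Ideal.mem_span_singleton]
      exact h2 t s (by rw [mul_comm]; exact hs)
    have h5 := ringKrullDim_quotient_succ_le_of_nonZeroDivisor hwnz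
    have hnt2 : Ideal.span {Ideal.Quotient.mk (Ideal.span {x}) w} ≠ ⊤ := by
      intro h
      rw [Ideal.eq_top_iff_one, Ideal.mem_span_singleton] at h
      have h6 : IsUnit (Ideal.Quotient.mk (Ideal.span {x}) w) := isUnit_of_dvd_one h
      have : IsLocalHom (Ideal.Quotient.mk (Ideal.span {x})) :=
        IsLocalHom.of_surjective _ Ideal.Quotient.mk_surjective
      exact (mem_maximalIdeal w).1 hw (isUnit_of_map_unit (Ideal.Quotient.mk (Ideal.span {x})) w h6)
    have : Nontrivial ((S ⧸ Ideal.span {x}) ⧸ Ideal.span {Ideal.Quotient.mk (Ideal.span {x}) w}) :=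
      Ideal.Quotient.nontrivial_iff.2 hnt2
    have h6 : (0 : WithBot ℕ∞) ≤ ringKrullDim ((S ⧸ Ideal.span {x}) ⧸
        Ideal.span {Ideal.Quotient.mk (Ideal.span {x}) w}) := ringKrullDim_nonneg_of_nontrivial
    have h7 : (0 : WithBot ℕ∞) + 1 ≤ ringKrullDim (S ⧸ Ideal.span {x}) :=
      (add_le_add h6 le_rfl).trans h5
    have h8 : (0 : WithBot ℕ∞) + 1 + 1 ≤ ringKrullDim S := (add_le_add h7 le_rfl).trans h4
    refine le_trans (le_of_eq ?_) h8
    norm_num

section facts

variable {k : Type} [Field k] (σ : PowerSeries k)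

/-- The element `z` of `R`. -/
noncomputable def zR : RR σ := evR σ (zE k)

/-- The element `y` of `R`. -/
noncomputable def yR : RR σ := evR σ (yE k)

theorem zR_fst : ((zR σ : RR σ) : BB k).1 = ZP k := evP_z σ X

theorem zR_snd : ((zR σ : RR σ) : BB k).2 = ZP k := evP_z σ (1 - X)

theorem not_x_dvd_Z : ¬ xP k ∣ ZP k := by
  rw [xP_dvd_iff]
  simp only [redP, ZP, map_mul, map_X, map_sub, map_one]
  apply mul_ne_zero X_ne_zero
  intro h
  have := congrArg constantCoeff h
  simp at this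

theorem n2 (hσ : constantCoeff σ = 0) (r s : RR σ) (h : zR σ * r = xR σ * s) : xR σ ∣ r := by
  rw [xR_dvd_iff σ hσ]
  have h1 := congrArg (fun t : RR σ => (t : BB k).1) h
  have h2 : ZP k * (r : BB k).1 = xP k * (s : BB k).1 := by
    rw [← zR_fst σ]; exact h1
  exact (xP_prime.dvd_or_dvd (Dvd.intro _ h2.symm)).resolve_left not_x_dvd_Z

theorem FF_x {i : ℕ} {p : PP k} (h : xP k * p ∈ FF k (i + 1)) : p ∈ FF k i := by
  intro l
  have h1 := h l
  rw [xP, coeff_C_mul] at h1
  by_cases hl : l ≤ i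
  · rw [show i + 1 - l = (i - l) + 1 by omega, pow_succ'] at h1
    exact (mul_dvd_mul_iff_left X_ne_zero).1 h1
  · rw [show i - l = 0 by omega]
    simp

theorem n3 (hσ : constantCoeff σ = 0) (i : ℕ) (r : RR σ)
    (h : xR σ * r ∈ (maximalIdeal (RR σ)) ^ (i + 1)) : r ∈ (maximalIdeal (RR σ)) ^ i := by
  have h1 := maxR_pow_le σ (i + 1) h
  exact mem_maxR_pow σ hσ i (FF_x h1.1) (FF_x h1.2)

theorem red_FF {i : ℕ} {p : PP k} (h : p ∈ FF k i) : (X : PowerSeries k) ^ i ∣ redP k p := by
  rw [X_pow_dvd_iff]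
  intro m hm
  have h1 := h m
  have h2 : (X : PowerSeries k) ∣ coeff m p := (dvd_pow_self X (by omega)).trans h1
  rw [X_dvd_iff] at h2
  simpa [redP] using h2

theorem red_Z : ∃ u : PowerSeries k, IsUnit u ∧ redP k (ZP k) = X * u := by
  refine ⟨1 - X, ?_, by simp [redP, ZP]⟩
  rw [isUnit_iff_constantCoeff]; simp

theorem red_div {i : ℕ} {p : PP k} (h : (X : PowerSeries k) ^ i ∣ redP k p) :
    ∃ a b : PP k, p = xP k * a + X ^ i * b := by
  obtain ⟨c, hc⟩ := h
  obtain ⟨a, ha⟩ : xP k ∣ p - X ^ i * PowerSeries.map C c := by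
    rw [xP_dvd_iff, map_sub, hc, map_mul, map_pow]
    have h1 : redP k X = X := by simp [redP]
    have h2 : redP k (PowerSeries.map C c) = c := by
      ext n; simp [redP]
    rw [h1, h2, sub_self]
  exact ⟨a, PowerSeries.map C c, by rw [← ha]; ring⟩

theorem n4 (hσ : constantCoeff σ = 0) (i : ℕ) (r : RR σ)
    (h : zR σ * r ∈ Ideal.span {xR σ} ⊔ (maximalIdeal (RR σ)) ^ (i + 1)) :
    r ∈ Ideal.span {xR σ} ⊔ (maximalIdeal (RR σ)) ^ i := by
  obtain ⟨a, ha, μ, hμ, hr⟩ := Submodule.mem_sup.1 h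
  obtain ⟨a, rfl⟩ := Ideal.mem_span_singleton.1 ha
  have hmu := maxR_pow_le σ (i + 1) hμ
  obtain ⟨u, hu, hZ⟩ := red_Z (k := k)
  have hred : ∀ (p q m : PP k), xP k * p + m = ZP k * q → m ∈ FF k (i + 1) →
      (X : PowerSeries k) ^ i ∣ redP k q := by
    intro p q m h1 h2
    have h3 := congrArg (redP k) h1
    rw [map_add, map_mul, map_mul, (xP_dvd_iff (xP k)).1 dvd_rfl, zero_mul, zero_add, hZ] at h3
    have h4 := red_FF h2
    rw [h3, pow_succ', mul_assoc] at h4
    exact hu.dvd_mul_left.1 ((mul_dvd_mul_iff_left X_ne_zero).1 h4)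
  have h1 : xP k * (a : BB k).1 + (μ : BB k).1 = ZP k * (r : BB k).1 := by
    rw [← zR_fst σ]; exact congrArg (fun t : RR σ => (t : BB k).1) hr
  have h2 : xP k * (a : BB k).2 + (μ : BB k).2 = ZP k * (r : BB k).2 := by
    rw [← zR_snd σ]; exact congrArg (fun t : RR σ => (t : BB k).2) hr
  cases i with
  | zero => simp
  | succ i =>
  obtain ⟨a1, b1, h3⟩ := red_div (hred _ _ _ h1 hmu.1)
  obtain ⟨a2, b2, h4⟩ := red_div (hred _ _ _ h2 hmu.2)
  apply closed σ hσ (n := 1)
  · rw [pow_one]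
    exact Ideal.mem_sup_left (Ideal.mem_span_singleton_self _)
  have ht' : ((X ^ (i + 1) * b1, X ^ (i + 1) * b2) : BB k) ∈ TT k := by
    rw [mem_TT]; simp
  have ha' : ((a1, a2) : BB k) ∈ TT k := by
    rw [mem_TT]
    have h5 := mem_TT.1 (RR_le_TT r.2)
    rw [h3, h4] at h5
    simp only [map_add, map_mul, constX, map_pow, constantCoeff_X] at h5
    have h6 : (X : PowerSeries k) * constantCoeff a1 = X * constantCoeff a2 := by
      simpa using h5
    exact mul_left_cancel₀ X_ne_zero h6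
  have h5 : iRT σ r = iRT σ (xR σ) * ⟨(a1, a2), ha'⟩ + ⟨_, ht'⟩ := T_ext h3 h4
  rw [h5, Ideal.map_sup, Ideal.map_pow, ← maxT_eq σ hσ, Ideal.map_span, Set.image_singleton]
  apply Ideal.add_mem
  · exact Ideal.mem_sup_left (Ideal.mul_mem_right _ _ (Ideal.mem_span_singleton_self _))
  · apply Ideal.mem_sup_right
    apply mem_maxT_pow σ hσ
    · have h6 : (X ^ (i + 1) : PP k) ∈ FF k (i + 1) := by
        intro l
        by_cases hl : l = i + 1
        · subst hl; simp
        · rw [coeff_X_pow, if_neg hl]; simp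
      exact Ideal.mul_mem_right _ _ h6
    · have h6 : (X ^ (i + 1) : PP k) ∈ FF k (i + 1) := by
        intro l
        by_cases hl : l = i + 1
        · subst hl; simp
        · rw [coeff_X_pow, if_neg hl]; simp
      exact Ideal.mul_mem_right _ _ h6

theorem xR_mem : xR σ ∈ maximalIdeal (RR σ) := by
  rw [mem_maxR]
  change dn k (xB k) = 0
  simp [dn_apply, xB, xP]

theorem zR_mem : zR σ ∈ maximalIdeal (RR σ) := by
  rw [mem_maxR]
  change constantCoeff (constantCoeff ((zR σ : RR σ) : BB k).1) = 0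
  rw [zR_fst]
  simp [ZP]

theorem evR_sub (a b : E0 k) : evR σ (a - b) = evR σ a - evR σ b := map_sub _ a b

theorem evR_S0 : evR σ (S0 k) = yR σ ^ 2 - zR σ * yR σ + zR σ ^ 3 := by
  unfold S0
  have h1 : (Polynomial.C (Polynomial.X ^ 3) : E0 k) = (zE k) ^ 3 := by
    rw [zE, Polynomial.C_pow]
  rw [map_add, evR_sub, map_mul, map_pow, h1, map_pow]
  rfl

theorem y_sq : yR σ ^ 2 = zR σ * yR σ - zR σ ^ 3 + evR σ (S0 k) := by
  rw [evR_S0]; ring

theorem max_le_of (hσ : constantCoeff σ = 0) {P : Ideal (RR σ)} (hP : P.IsPrime)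
    (hx : xR σ ∈ P) (hz : zR σ ∈ P) : P = maximalIdeal (RR σ) := by
  have hy : yR σ ∈ P := by
    apply hP.mem_of_pow_mem 2
    rw [y_sq, ← SE_one hσ, evR_SE, pow_one]
    exact Ideal.add_mem _ (Ideal.sub_mem _ (Ideal.mul_mem_right _ _ hz)
      (Ideal.pow_mem_of_mem _ hz 3 (by norm_num))) (Ideal.mul_mem_right _ _ hx)
  have h1 : maximalIdeal (RR σ) ≤ P := by
    rw [maxR_eq σ hσ, Ideal.span_le]
    intro t ht
    simp only [Set.mem_insert_iff, Set.mem_singleton_iff] at ht
    rcases ht with rfl | rfl | rfl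
    · exact hx
    · exact hy
    · exact hz
  exact ((maximalIdeal.isMaximal (RR σ)).eq_of_le hP.ne_top h1).symm

theorem dimR (hσ : constantCoeff σ = 0) (hσt : Transcendental (Polynomial k) σ) :
    ringKrullDim (RR σ) = 2 := by
  have := noeth σ hσ hσt
  have := noZeroDiv σ hσ
  exact dim2 (xR_mem σ) (zR_mem σ)
    (fun t ht => (mul_eq_zero.1 ht).resolve_left (xR_ne_zero σ))
    (fun t s h => n2 σ hσ t s h)
    (fun P hP hx hz => max_le_of σ hσ hP hx hz)

theorem dimT (k : Type) [Field k] : ringKrullDim (TT k) = 2 := by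
  have h := ainf2 (k := k)
  have hm : xT k ∈ maximalIdeal (TT k) := by
    rw [h.max]; exact Ideal.subset_span (by simp)
  have hu : pT k ∈ maximalIdeal (TT k) := by
    rw [h.max]; exact Ideal.subset_span (by simp)
  have hv : qT k ∈ maximalIdeal (TT k) := by
    rw [h.max]; exact Ideal.subset_span (by simp)
  refine dim2 hm (Ideal.add_mem _ hu hv) h.xreg h.wreg ?_
  intro P hP hx hw
  have hu' : pT k ∈ P := by
    apply hP.mem_of_pow_mem 2
    have : pT k ^ 2 = (pT k + qT k) * pT k := by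
      linear_combination -h.uv
    rw [this]
    exact P.mul_mem_right _ hw
  have hv' : qT k ∈ P := by
    have : qT k = (pT k + qT k) - pT k := by ring
    rw [this]
    exact P.sub_mem hw hu'
  have h1 : maximalIdeal (TT k) ≤ P := by
    rw [h.max, Ideal.span_le]
    intro t ht
    simp only [Set.mem_insert_iff, Set.mem_singleton_iff] at ht
    rcases ht with rfl | rfl | rfl
    · exact hx
    · exact hu'
    · exact hv'
  exact ((maximalIdeal.isMaximal (TT k)).eq_of_le hP.ne_top h1).symm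

theorem hreg (hσ : constantCoeff σ = 0) (g : RR σ) (hg : g ≠ 0) (t : TT k)
    (h : iRT σ g * t = 0) : t = 0 := by
  have h1 : (g : BB k).1 ≠ 0 := fun h0 =>
    hg (Subtype.ext (eq_zero_of_fst σ hσ g.2 (Or.inl h0)))
  have h2 : (g : BB k).2 ≠ 0 := fun h0 =>
    hg (Subtype.ext (eq_zero_of_fst σ hσ g.2 (Or.inr h0)))
  have h3 : (g : BB k).1 * (t : BB k).1 = 0 := congrArg (fun t : TT k => (t : BB k).1) h
  have h4 : (g : BB k).2 * (t : BB k).2 = 0 := congrArg (fun t : TT k => (t : BB k).2) h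
  exact T_ext ((mul_eq_zero.1 h3).resolve_left h1) ((mul_eq_zero.1 h4).resolve_left h2)

/-- A power of `X` on one branch. -/
theorem exists_pow_branch {p : PP k} (hp : ¬ xP k ∣ p) :
    ∃ (a : ℕ) (v c : PP k), p * v = X ^ a + xP k * c := by
  rw [xP_dvd_iff] at hp
  obtain ⟨n, v, hv⟩ := IsDiscreteValuationRing.associated_pow_irreducible hp
    (X_prime (R := k)).irreducible
  refine ⟨n, PowerSeries.map C v, ?_⟩
  obtain ⟨c, hc⟩ : xP k ∣ p * PowerSeries.map C (v : PowerSeries k) - X ^ n := by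
    rw [xP_dvd_iff, map_sub, map_mul, map_pow]
    have h1 : redP k X = X := by simp [redP]
    have h2 : redP k (PowerSeries.map C (v : PowerSeries k)) = v := by
      ext n; simp [redP]
    rw [h1, h2, hv, sub_self]
  exact ⟨c, by rw [← hc]; ring⟩

theorem hprimes (hσ : constantCoeff σ = 0) (hσt : Transcendental (Polynomial k) σ)
    (P : Ideal (RR σ)) (hP : P.IsPrime) :
    (∃ g, P = Ideal.span {g}) ∨ P = maximalIdeal (RR σ) := by
  by_cases hx : xR σ ∈ P
  swap
  · exact Or.inl (prime_principal σ hσ hσt hP hx)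
  by_cases hle : P ≤ Ideal.span {xR σ}
  · exact Or.inl ⟨xR σ, le_antisymm hle ((Ideal.span_singleton_le_iff_mem P).2 hx)⟩
  right
  rw [SetLike.not_le_iff_exists] at hle
  obtain ⟨t, ht, htx⟩ := hle
  rw [Ideal.mem_span_singleton] at htx
  have h1 : ¬ xP k ∣ (t : BB k).1 := fun h => htx ((xR_dvd_iff σ hσ).2 h)
  have h2 : ¬ xP k ∣ (t : BB k).2 := fun h => htx ((xR_dvd_iff' σ hσ).2 h)
  obtain ⟨a, v1, c1, ha⟩ := exists_pow_branch h1
  obtain ⟨b, v2, c2, hb⟩ := exists_pow_branch h2
  have hz : zR σ ^ (a + b + 1) ∈ P := by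
    apply closed σ hσ (n := 1) (by simpa using hx)
    have hx' : iRT σ (xR σ) ∈ P.map (iRT σ) := Ideal.mem_map_of_mem _ hx
    have ht' : iRT σ t ∈ P.map (iRT σ) := Ideal.mem_map_of_mem _ ht
    have h3 : iRT σ (zR σ ^ (a + b + 1)) =
        iRT σ t * (pT k * dg k (v1 * (X ^ b * (1 - X) ^ (a + b + 1)))) -
        iRT σ (xR σ) * (pT k * dg k (c1 * (X ^ b * (1 - X) ^ (a + b + 1)))) +
        (iRT σ t * (qT k * dg k (v2 * (X ^ a * (1 - X) ^ (a + b + 1)))) -
        iRT σ (xR σ) * (qT k * dg k (c2 * (X ^ a * (1 - X) ^ (a + b + 1))))) := by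
      apply T_ext
      · change ((zR σ : RR σ) : BB k).1 ^ (a + b + 1) =
          (t : BB k).1 * (X * (v1 * (X ^ b * (1 - X) ^ (a + b + 1)))) -
          xP k * (X * (c1 * (X ^ b * (1 - X) ^ (a + b + 1)))) +
          ((t : BB k).1 * (0 * (v2 * (X ^ a * (1 - X) ^ (a + b + 1)))) -
          xP k * (0 * (c2 * (X ^ a * (1 - X) ^ (a + b + 1)))))
        rw [zR_fst, ZP, mul_pow]
        linear_combination (-(X * (X ^ b * (1 - X) ^ (a + b + 1)))) * ha
      · change ((zR σ : RR σ) : BB k).2 ^ (a + b + 1) =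
          (t : BB k).2 * (0 * (v1 * (X ^ b * (1 - X) ^ (a + b + 1)))) -
          xP k * (0 * (c1 * (X ^ b * (1 - X) ^ (a + b + 1)))) +
          ((t : BB k).2 * (X * (v2 * (X ^ a * (1 - X) ^ (a + b + 1)))) -
          xP k * (X * (c2 * (X ^ a * (1 - X) ^ (a + b + 1)))))
        rw [zR_snd, ZP, mul_pow]
        linear_combination (-(X * (X ^ a * (1 - X) ^ (a + b + 1)))) * hb
    rw [h3]
    exact Ideal.add_mem _ (Ideal.sub_mem _ (Ideal.mul_mem_right _ _ ht')
      (Ideal.mul_mem_right _ _ hx')) (Ideal.sub_mem _ (Ideal.mul_mem_right _ _ ht')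
      (Ideal.mul_mem_right _ _ hx'))
  exact max_le_of σ hσ hP hx (hP.mem_of_pow_mem _ hz)

theorem hsurj (hσ : constantCoeff σ = 0) (t : TT k) (N : ℕ) :
    ∃ r : RR σ, iRT σ r - t ∈ (maximalIdeal (TT k)) ^ N := by
  obtain ⟨r, hr⟩ := dense_T σ hσ N t
  refine ⟨r, ?_⟩
  rw [← neg_sub]
  exact (Ideal.neg_mem_iff _).2 hr

end facts

/-- A transcendental power series over a countable field. -/
theorem exists_sigma : ∃ σ : PowerSeries ℚ, constantCoeff σ = 0 ∧
    Transcendental (Polynomial ℚ) σ := by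
  have halg : ∀ p : Polynomial ℚ, algebraMap (Polynomial ℚ) (PowerSeries ℚ) p =
      (p : PowerSeries ℚ) := fun p => rfl
  have hcount : Countable (Polynomial ℚ) := by
    rw [← Cardinal.mk_le_aleph0_iff]
    exact (Polynomial.cardinalMk_le_max).trans (by simp)
  have htf : Module.IsTorsionFree (Polynomial ℚ) (PowerSeries ℚ) := by
    rw [Module.isTorsionFree_iff_algebraMap_injective]
    intro a b h
    rw [halg, halg] at h
    exact Polynomial.coe_injective ℚ h
  have h1 : {s : PowerSeries ℚ | IsAlgebraic (Polynomial ℚ) s}.Countable :=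
    Algebraic.countable (Polynomial ℚ) (PowerSeries ℚ)
  have h2 : ¬ (Set.univ : Set (PowerSeries ℚ)).Countable := by
    rw [Set.countable_univ_iff]
    intro h
    have h3 : Countable (ℕ → Bool) := by
      let f : (ℕ → Bool) → PowerSeries ℚ := fun s => PowerSeries.mk fun n => if s n then 1 else 0
      have hf : Function.Injective f := by
        intro s t hst
        funext n
        have := congrArg (coeff n) hst
        simp only [f, coeff_mk] at this
        by_cases hs : s n <;> by_cases ht : t n <;> simp_all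
      exact hf.countable
    obtain ⟨g, hg⟩ := exists_surjective_nat (ℕ → Bool)
    obtain ⟨m, hm⟩ := hg (fun n => !(g n n))
    have := congrFun hm m
    simp at this
  have h3 : ∃ s : PowerSeries ℚ, ¬ IsAlgebraic (Polynomial ℚ) s := by
    by_contra hcon
    push Not at hcon
    apply h2
    exact h1.mono (fun s _ => hcon s)
  obtain ⟨s, hs⟩ := h3
  refine ⟨X * s, by simp, ?_⟩
  intro hXs
  apply hs
  have hX : IsAlgebraic (Polynomial ℚ) (X : PowerSeries ℚ) := by
    have := isAlgebraic_algebraMap (R := Polynomial ℚ) (A := PowerSeries ℚ) (Polynomial.X)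
    rw [halg, Polynomial.coe_X] at this
    exact this
  exact IsAlgebraic.of_mul (mem_nonZeroDivisors_of_ne_zero X_ne_zero) hX hXs

end Pool.Agent.H945B
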